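import Pool.Agent.P.MP_7c5a52_nt.X.Main

/-! The ring of `Y_1(n)` for any level of degree at most `r` and the action of `(A/n)^*`. -/

open Polynomial

set_option linter.unusedSectionVars false

namespace Pool.Agent.P.MP_7c5a52_nt.N

open G X

section Sol

variable {k Ω : Type} [Field k] [Fintype k] [Field Ω] [Algebra k Ω] {s : ℕ} {p : k[X]} {t : Ω}
  {ψ : k[X] →ₗ[k] Ω} {G G' : Fin (s + 1) → Ω}

theorem card_root (hp : p ≠ 0) [Fintype (AdjoinRoot p)] :
    Fintype.card (AdjoinRoot p) = Fintype.card k ^ p.natDegree := by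
  rw [Module.card_eq_pow_finrank (K := k), (AdjoinRoot.powerBasis hp).finrank,
    AdjoinRoot.powerBasis_dim]

theorem fin_root (hp : p ≠ 0) : Finite (AdjoinRoot p) :=
  have := (AdjoinRoot.powerBasis hp).finite
  Module.finite_of_finite k

/-- The image of a linear map with kernel `(p)`, as a finite set. -/
theorem exists_finset (hp : p ≠ 0) (ψ : k[X] →ₗ[k] Ω) (h : ∀ a, ψ a = 0 ↔ p ∣ a) :
    ∃ Cs : Finset Ω, Cs.card = Fintype.card k ^ p.natDegree ∧ ∀ y, y ∈ Cs ↔ ∃ a, ψ a = y := by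
  classical
  have := N.fin_root hp
  have := Fintype.ofFinite (AdjoinRoot p)
  choose r hr using AdjoinRoot.mk_surjective (g := p)
  refine ⟨Finset.univ.image fun z => ψ (r z), ?_, fun y => ?_⟩
  · rw [Finset.card_image_of_injective _ fun z z' e => ?_, Finset.card_univ, N.card_root hp]
    rw [← hr z, ← hr z', AdjoinRoot.mk_eq_mk]
    exact (h _).1 (by rw [map_sub, e, sub_self])
  · simp only [Finset.mem_image, Finset.mem_univ, true_and]
    refine ⟨fun ⟨z, hz⟩ => ⟨_, hz⟩, fun ⟨a, ha⟩ => ⟨AdjoinRoot.mk p a, ?_⟩⟩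
    rw [← ha, ← sub_eq_zero, ← map_sub, h, ← AdjoinRoot.mk_eq_mk, hr]

theorem sol_uniq (hp : p ≠ 0) (h : Sol p t ψ G) (h' : Sol p t ψ G')
    (hG : ∀ l, p.natDegree ≤ l.1 → G l = G' l) : G = G' := by
  classical
  obtain ⟨Cs, hC, hC'⟩ := N.exists_finset hp ψ h.ker
  obtain ⟨h1, h2, h3⟩ := qpoly (k := k) (G - G') fun l hl => sub_eq_zero.2 (hG l hl)
  rw [← hC, ← Finset.card_image_of_injective _ fun _ _ => inj_q (k := k)] at h1
  have h4 := eq_zero_of_natDegree_lt_card_of_eval_eq_zero' _ _ (fun z hz => ?_) h1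
  · rw [h4] at h2
    exact funext fun l => sub_eq_zero.1 (h2 l).symm
  · obtain ⟨y, hy, rfl⟩ := Finset.mem_image.1 hz
    obtain ⟨a, rfl⟩ := (hC' y).1 hy
    rw [h3]
    simp only [Pi.sub_apply, sub_mul, Finset.sum_sub_distrib, h.eq, h'.eq, sub_self]

theorem sol_mem (hp : p ≠ 0) (h : Sol p t ψ G) {U : Subring Ω} (ht : t ∈ U)
    (hψ : ∀ a, ψ a ∈ U ∧ (ψ a)⁻¹ ∈ U) (hG : ∀ l, p.natDegree ≤ l.1 → G l ∈ U) (l : Fin (s + 1)) :
    G l ∈ U := by
  classical
  obtain ⟨Cs, hC, hC'⟩ := N.exists_finset hp ψ h.ker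
  obtain ⟨h1, h2, h3⟩ := qpoly (k := k) (fun l => if l.1 < p.natDegree then G l else 0)
    fun l hl => if_neg (not_lt.2 hl)
  have hm : ∀ z ∈ U, C z ∈ liftsRing U.subtype := fun z hz => C_mem_lifts U.subtype ⟨z, hz⟩
  have e := Lagrange.eq_interpolate (s := Cs) (v := (· ^ Fintype.card k))
    (fun _ _ _ _ => inj_q (k := k)) (degree_le_natDegree.trans_lt (by exact_mod_cast hC ▸ h1))
  rcases lt_or_ge l.1 p.natDegree with hl | hl
  swap
  · exact hG l hl
  have h4 := h2 l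
  rw [if_pos hl] at h4
  suffices h5 : _ ∈ liftsRing U.subtype by
    obtain ⟨z, hz⟩ := (lifts_iff_coeff_lifts _).1 ((lifts_iff_liftsRing U.subtype _).2 h5)
      (Fintype.card k ^ l.1)
    exact (hz.trans h4) ▸ z.2
  rw [e]
  refine sum_mem fun y hy => mul_mem (hm _ ?_) (prod_mem fun y' hy' => mul_mem (hm _ ?_)
    (sub_mem (X_mem_lifts _) (hm _ ?_)))
  all_goals obtain ⟨a, rfl⟩ := (hC' y).1 hy
  · have : ∀ l : Fin (s + 1), (if l.1 < p.natDegree then G l else 0) =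
        G l - if l.1 < p.natDegree then 0 else G l := fun l => by split_ifs <;> simp
    beta_reduce
    rw [h3]
    simp only [this, sub_mul, Finset.sum_sub_distrib, h.eq]
    refine sub_mem (sub_mem (hψ _).1 (mul_mem ht (hψ _).1))
      (sum_mem fun l _ => mul_mem ?_ (pow_mem (hψ _).1 _))
    split_ifs with hl
    · exact zero_mem _
    · exact hG l (not_lt.1 hl)
  all_goals obtain ⟨a', rfl⟩ := (hC' y').1 (Finset.mem_of_mem_erase hy')
  · have := map_sub (FiniteField.frobeniusAlgHom k Ω) (ψ a) (ψ a')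
    simp only [FiniteField.coe_frobeniusAlgHom] at this
    rw [← this, ← map_sub, ← inv_pow]
    exact pow_mem (hψ _).2 _
  · exact pow_mem (hψ _).1 _

omit [Fintype k] in
theorem nd_one (hp : 0 < p.natDegree) : ¬ p ∣ 1 := fun h =>
  hp.ne' (natDegree_eq_zero_of_isUnit (isUnit_of_dvd_one h))

omit [Fintype k] in
theorem nd_cop (hp : 0 < p.natDegree) {b : k[X]} (hb : IsCoprime p b) : ¬ p ∣ b := fun h =>
  nd_one hp (isUnit_iff_dvd_one.1 (hb.isUnit_of_dvd h))

omit [Fintype k] in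
theorem cop_C {β : k} (hβ : β ≠ 0) : IsCoprime p (C β) :=
  ⟨0, C β⁻¹, by rw [zero_mul, zero_add, ← C_mul, inv_mul_cancel₀ hβ, C_1]⟩

variable (p) in
/-- A linear choice of representatives modulo `p`. -/
noncomputable def sec : AdjoinRoot p →ₗ[k] k[X] :=
  ((AdjoinRoot.mkₐ p).toLinearMap.exists_rightInverse_of_surjective
    (LinearMap.range_eq_top.2 AdjoinRoot.mk_surjective)).choose

omit [Fintype k] in
theorem mk_sec (x : AdjoinRoot p) : AdjoinRoot.mk p (sec p x) = x :=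
  LinearMap.congr_fun ((AdjoinRoot.mkₐ p).toLinearMap.exists_rightInverse_of_surjective
    (LinearMap.range_eq_top.2 AdjoinRoot.mk_surjective)).choose_spec x

omit [Fintype k] in
theorem nd_sec {x : AdjoinRoot p} (h : x ≠ 0) : ¬ p ∣ sec p x := fun e =>
  h (mk_sec x ▸ AdjoinRoot.mk_eq_zero.2 e)

omit [Fintype k] in
theorem cop_sec (g : (AdjoinRoot p)ˣ) : IsCoprime p (sec p g) := by
  obtain ⟨u, hu⟩ : p ∣ 1 - sec p ↑g⁻¹ * sec p g :=
    AdjoinRoot.mk_eq_mk.1 (by rw [map_mul, mk_sec, mk_sec, Units.inv_mul, map_one])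
  exact ⟨u, sec p ↑g⁻¹, by linear_combination -hu⟩

omit [Fintype k] in
theorem exists_unit {b : k[X]} (hb : IsCoprime p b) :
    ∃ g : (AdjoinRoot p)ˣ, (g : AdjoinRoot p) = AdjoinRoot.mk p b := by
  obtain ⟨u, w, h⟩ := hb
  refine ⟨Units.mkOfMulEqOne (AdjoinRoot.mk p b) (AdjoinRoot.mk p w) ?_, rfl⟩
  simpa [mul_comm] using congrArg (AdjoinRoot.mk p) h

end Sol

variable {k F E Ω : Type} [Field k] [Fintype k] [Field F] [Field E] [Field Ω] [Algebra k Ω]
  [Algebra F Ω] [Algebra E Ω] {T : F} {s : ℕ} {j : Fin s → E} [Algebra k F] [Algebra F E]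
  [IsScalarTower F E Ω] [IsScalarTower k F Ω] [GenJ F j] [GenT k T] {p : k[X]} {c c' : Ω}

attribute [local instance] tower

theorem aeval_lin {K : Type} [Field K] [Algebra k K] [Algebra K Ω] [IsScalarTower k K Ω]
    (hp : 0 < p.natDegree) (hd : p.natDegree ≤ s + 1) {ψ : k[X] →ₗ[k] Ω} (h1 : ψ 1 = 1)
    (h : ∀ a, p ∣ a → ψ a = 0) (z : Fin (s + 1) → Ω) (a : k[X]) :
    MvPolynomial.aeval (cw p.natDegree ψ z) (lin s p K a) = ψ a := by
  have hr : (a % p).natDegree < p.natDegree := natDegree_mod_lt a hp.ne'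
  conv_rhs => rw [← EuclideanDomain.mod_add_div a p, map_add, h _ (dvd_mul_right _ _), add_zero,
    (a % p).as_sum_range_C_mul_X_pow' (hr.trans_le hd), Finset.sum_range, map_sum]
  rw [lin, map_sum]
  refine Finset.sum_congr rfl fun i _ => ?_
  rw [C_mul', map_smul, Algebra.smul_def, map_mul, MvPolynomial.aeval_C,
    ← IsScalarTower.algebraMap_apply]
  rcases lt_or_ge i.1 p.natDegree with hi | hi
  · congr 1
    revert hi
    refine Fin.cases (fun _ => ?_) (fun i hi => ?_) i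
    · simp [hX, h1]
    · simpa [hX, cw] using fun h => absurd hi (not_lt.2 h)
  · rw [coeff_eq_zero_of_natDegree_lt (hr.trans_le hi), map_zero, zero_mul, zero_mul]

theorem lev_mul (h : IsLevel k T j (Ideal.span {p}) c) {b : k[X]} (hb : IsCoprime p b) :
    IsLevel k T j (Ideal.span {p}) (aeval (phiT k Ω T j) b c) := fun a => by
  rw [← Module.End.mul_apply, ← map_mul, lev_iff h, Ideal.mem_span_singleton]
  exact ⟨hb.dvd_of_dvd_mul_right, fun h => h.mul_right _⟩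

theorem gal_of (h : IsLevel k T j (Ideal.span {p}) c) {σ : Ω ≃ₐ[E] Ω}
    {b : k[X]} (hb : IsCoprime p b) (e : σ c = aeval (phiT k Ω T j) b c) : σ ∈ gal k T j c := by
  refine mem_gal.2 (Set.Subset.antisymm ?_ ?_)
  · rintro _ ⟨_, ⟨a, rfl⟩, rfl⟩
    exact ⟨a * b, by simp only [comm_phi, e, map_mul, Module.End.mul_apply]⟩
  · rintro _ ⟨a, rfl⟩
    obtain ⟨u, w, huw⟩ := hb
    refine ⟨_, ⟨a * w, rfl⟩, ?_⟩
    have := congrArg (fun x => aeval (phiT k Ω T j) (a * x) c) huw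
    simp only [mul_add, map_add, LinearMap.add_apply, mul_one,
      (lev_iff h (a * (u * p))).2 ⟨a * u, by ring⟩, zero_add] at this
    simp only [comm_phi, e, ← this, map_mul, Module.End.mul_apply]

/-- The maps `φ_a` are onto. -/
theorem exists_pre [IsSepClosed Ω] (hp : 0 < p.natDegree) (y : Ω) :
    ∃ x, aeval (phiT k Ω T j) p x = y := by
  have hp0 : p ≠ 0 := ne_zero_of_natDegree_gt hp
  have hq1 : 1 < Fintype.card k := Fintype.one_lt_card
  obtain ⟨d1, _⟩ := deg_PhiG hq1 (TT Ω T) (g_ne F (Ω := Ω) (j := j) (Fin.last s))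
    fun l hl => absurd hl (not_lt.2 (Fin.le_last l))
  have h1 := d1 ▸ Nat.one_lt_pow (Nat.succ_ne_zero _) hq1
  obtain ⟨d2, _⟩ := deg_pa (d := p.natDegree) (a := fun n => algebraMap k Ω (p.coeff n)) h1
    ((_root_.map_ne_zero _).2 (leadingCoeff_ne_zero.2 hp0))
  obtain ⟨Λ, hΛ, hΛ', _⟩ := exists_roots (f := pa (PhiG (Fintype.card k) (TT Ω T) (g Ω j))
    (fun n => algebraMap k Ω (p.coeff n)) p.natDegree - C y) (aeval_TT (Ω := Ω) (T := T) hp0) (by
      rw [derivative_sub, derivative_C, sub_zero, der_pa (der_PhiG (q_cast k) (TT Ω T) (g Ω j)),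
        aeval_eq_sum_range]
      simp only [Algebra.smul_def])
  obtain ⟨x, hx⟩ : Λ.Nonempty := Finset.card_pos.1 (by
    rw [hΛ, natDegree_sub_C, d2]; positivity)
  refine ⟨x, ?_⟩
  rwa [hΛ', eval_sub, eval_C, sub_eq_zero,
    eval_pa (fun z => (eval_PhiG _ _ _ z).trans (phiT_apply z).symm)] at hx

/-- Existence of a point of exact order `p`. -/
theorem exists_level [IsSepClosed Ω] (hp : p ≠ 0) :
    ∃ c : Ω, IsLevel k T j (Ideal.span {p}) c := by
  induction p using UniqueFactorizationMonoid.induction_on_prime with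
  | h₁ => exact absurd rfl hp
  | h₂ x hx => exact ⟨0, fun a => by simp [Ideal.mem_span_singleton, hx.dvd]⟩
  | h₃ n π hn hπ ih =>
    obtain ⟨c, hc⟩ := ih hn
    obtain ⟨t, ht⟩ := G.exists_level (T := T) (j := j) (Ω := Ω) hπ.irreducible
    obtain ⟨y, h1, h2⟩ : ∃ y, aeval (phiT k Ω T j) π y = c ∧ aeval (phiT k Ω T j) n y ≠ 0 := by
      by_contra! h
      obtain ⟨x, hx⟩ := exists_pre (T := T) (j := j) hπ.irreducible.natDegree_pos c
      have h1 := h (x + t) (by rw [map_add, hx, (lev_iff ht π).2 dvd_rfl, add_zero])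
      rw [map_add, h x hx, zero_add, lev_iff ht] at h1
      obtain ⟨m, rfl⟩ := h1
      have h2 := h x hx
      rw [mul_comm, map_mul, Module.End.mul_apply, hx, lev_iff hc] at h2
      exact hπ.not_dvd_one ((mul_dvd_mul_iff_right (right_ne_zero_of_mul hn)).1
        (by rwa [one_mul]))
    refine ⟨y, fun a => ?_⟩
    rw [Ideal.mem_span_singleton]
    have e : ∀ a, aeval (phiT k Ω T j) (a * π) y = 0 ↔ n ∣ a := fun a => by
      rw [map_mul, Module.End.mul_apply, h1, lev_iff hc]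
    refine ⟨fun h => ?_, ?_⟩
    · obtain ⟨a, rfl⟩ := (e a).1 (by rw [mul_comm, map_mul, Module.End.mul_apply, h, map_zero])
      rw [mul_comm π]
      refine mul_dvd_mul_left n (by_contra fun hn => h2 ?_)
      obtain ⟨u, w, huw⟩ := hπ.irreducible.coprime_iff_not_dvd.2 hn
      have := congrArg (fun x => aeval (phiT k Ω T j) (x * n) y) huw
      simp only [add_mul, map_add, LinearMap.add_apply, one_mul] at this
      rw [← this, mul_right_comm, (e _).2 (dvd_mul_left _ _), zero_add, mul_assoc, mul_comm a,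
        map_mul, Module.End.mul_apply, h, map_zero]
    · rintro ⟨b, rfl⟩
      rw [mul_assoc, mul_comm]
      exact (e _).2 (dvd_mul_right _ _)

variable (T j) in
/-- Standing hypotheses. -/
structure Hn (p : k[X]) (c : Ω) : Prop where
  pos : 0 < p.natDegree
  deg : p.natDegree ≤ s + 1
  lev : IsLevel k T j (Ideal.span {p}) c

theorem Hn.ne0 (H : Hn T j p c) : p ≠ 0 := ne_zero_of_natDegree_gt H.pos

theorem Hn.ne (H : Hn T j p c) : c ≠ 0 :=
  fun e => nd_one H.pos ((lev_iff H.lev 1).1 (by simp [e]))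

theorem Hn.mul (H : Hn T j p c) {b : k[X]} (hb : IsCoprime p b) : Hn T j p (orb k T j c b) :=
  ⟨H.pos, H.deg, N.lev_mul H.lev hb⟩

theorem psi_eq {y : Ω} (hy : y ≠ 0) (a : k[X]) :
    ∑ l, resc k j y l * psi k T j y a ^ Fintype.card k ^ (l.1 + 1) =
      psi k T j y (X * a) - TT Ω T * psi k T j y a := by
  simp only [psi_apply, map_mul, aeval_X, Module.End.mul_apply, phiT_apply, add_div,
    Finset.sum_div, mul_div_assoc, add_sub_cancel_left]
  refine Finset.sum_congr rfl fun l _ => ?_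
  rw [resc, div_pow, ← wt_succ, pow_succ y]
  field_simp

theorem psi_one {y : Ω} (hy : y ≠ 0) : psi k T j y 1 = 1 := by simp [psi_apply, hy]

theorem psi_C {y : Ω} (hy : y ≠ 0) (β : k) : psi k T j y (C β) = algebraMap k Ω β := by
  rw [← mul_one (C β), C_mul', map_smul, psi_one hy, Algebra.smul_def, mul_one]

theorem Hn.sol (H : Hn T j p c) : Sol p (TT Ω T) (psi k T j c) (resc k j c) where
  one := psi_one H.ne
  ker := fun a => by rw [psi_apply, div_eq_zero_iff, or_iff_left H.ne, lev_iff H.lev]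
  eq := psi_eq H.ne

theorem Hn.psi_ne (H : Hn T j p c) {a : k[X]} (ha : ¬ p ∣ a) : psi k T j c a ≠ 0 :=
  (H.sol.ker a).not.2 ha

theorem Hn.psi_congr (H : Hn T j p c) {a b : k[X]} (h : p ∣ a - b) :
    psi k T j c a = psi k T j c b := by
  rw [← sub_eq_zero, ← map_sub, H.sol.ker]; exact h

theorem Hn.lin (H : Hn T j p c) (a : k[X]) :
    MvPolynomial.aeval (ww T j p c) (lin s p (Fsep F Ω) a) = psi k T j c a :=
  N.aeval_lin H.pos H.deg H.sol.one (fun a => (H.sol.ker a).2) _ a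

theorem Hn.psi_R (H : Hn T j p c) (a : k[X]) :
    psi k T j c a ∈ R1 T j p c ∧ (psi k T j c a)⁻¹ ∈ R1 T j p c := by
  refine ⟨H.lin a ▸ aeval_mem_locM _, ?_⟩
  by_cases h : p ∣ a
  · rw [(H.sol.ker a).2 h, inv_zero]; exact zero_mem _
  · rw [← H.lin]
    exact inv_mem_locM ⟨a, h, rfl⟩ (by rw [H.lin]; exact H.psi_ne h)

theorem Hn.psi_un (H : Hn T j p c) {a : k[X]} (ha : ¬ p ∣ a) : Un (R1 T j p c) (psi k T j c a) :=
  ⟨(H.psi_R a).1, (H.psi_R a).2, H.psi_ne ha⟩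

theorem cw_high (hp : 0 < p.natDegree) {ψ : k[X] →ₗ[k] Ω} {l : Fin (s + 1)}
    (hl : p.natDegree ≤ l.1) : ∃ i, i.succ = l ∧ ∀ z, cw p.natDegree ψ z i = z l := by
  obtain ⟨i, rfl⟩ := Fin.exists_succ_eq.2 (show l ≠ 0 from fun e => by
    rw [e, Fin.val_zero] at hl
    omega)
  exact ⟨i, rfl, fun z => if_neg (not_lt.2 hl)⟩

theorem Hn.resc_R (H : Hn T j p c) (l : Fin (s + 1)) : resc k j c l ∈ R1 T j p c :=
  N.sol_mem H.ne0 H.sol (K_R T_K) H.psi_R (fun l hl => by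
    obtain ⟨i, _, h⟩ := N.cw_high (ψ := psi k T j c) H.pos hl
    simpa [h, R1] using aeval_mem_locM (K := Fsep F Ω) (v := ww T j p c) (MvPolynomial.X i)) l

theorem Hn.R_le (H : Hn T j p c) {U : Subring Ω} (hK : ∀ y ∈ Fsep F Ω, y ∈ U)
    (hψ : ∀ a, ¬ p ∣ a → Un U (psi k T j c a)) (hG : ∀ l, resc k j c l ∈ U) : R1 T j p c ≤ U := by
  refine locM_le (fun a => hK _ a.2) (fun i => ?_) ?_
  · simp only [cw]
    split_ifs
    · by_cases h : p ∣ X ^ (i.1 + 1)
      · rw [(H.sol.ker _).2 h]; exact zero_mem _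
      · exact (hψ _ h).1
    · exact hG _
  · rintro _ ⟨a, ha, rfl⟩
    rw [H.lin]
    exact hψ a ha

theorem Hn.R_L (H : Hn T j p c) {z : Ω} (hz : z ∈ R1 T j p c) : z ∈ L1 T j p c :=
  locM_le (U := (L1 T j p c).toSubring) (fun a => (L1 T j p c).algebraMap_mem a)
    (fun i => IntermediateField.subset_adjoin _ _ ⟨i, rfl⟩) (by
      rintro _ ⟨a, ha, rfl⟩
      exact ⟨aeval_mem_adjoin _, (L1 T j p c).inv_mem (aeval_mem_adjoin _), H.lin a ▸ H.psi_ne ha⟩) hz

theorem Hn.g_L (H : Hn T j p c) (l : Fin (s + 1)) : g Ω j l ∈ L1 T j p c := by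
  rw [g_eq (k := k) H.ne l]
  exact div_mem (H.R_L (H.resc_R _)) (pow_mem (H.R_L (H.resc_R _)) _)

theorem Hn.orb_eq (H : Hn T j p c) (a : k[X]) : orb k T j c a = psi k T j c a * c :=
  (div_mul_cancel₀ _ H.ne).symm.trans (by rw [psi_apply]; rfl)

variable {σ τ : Ω ≃ₐ[E] Ω} {b b' : k[X]}

theorem Hn.acts_psi (H : Hn T j p c) (h : Acts T j c σ b) (a : k[X]) :
    σ (psi k T j c a) = psi k T j c (a * b) / psi k T j c b := by
  obtain ⟨β, hβ, e⟩ := h
  rw [psi_apply, map_div₀, ← orb_apply, map_orb, e, orb_smul, orb_orb,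
    mul_div_mul_left _ _ ((_root_.map_ne_zero _).2 hβ), H.orb_eq, H.orb_eq,
    mul_div_mul_right _ _ H.ne]

theorem Hn.acts_resc (H : Hn T j p c) (h : Acts T j c σ b) (l : Fin (s + 1)) :
    σ (resc k j c l) = resc k j c l * psi k T j c b ^ wt k l := by
  obtain ⟨β, hβ, e⟩ := h
  rw [resc, map_mul, fix_g, map_pow, e, mul_pow, pow_wt hβ, H.orb_eq]
  ring

theorem Hn.acts_gal (H : Hn T j p c) (h : Acts T j c σ b) (hb : IsCoprime p b) :
    σ ∈ gal k T j c := by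
  obtain ⟨β, hβ, e⟩ := h
  refine N.gal_of H.lev (b := C β * b) ((cop_C hβ).mul_right hb) ?_
  rw [e, C_mul', ← orb_apply, map_smul, Algebra.smul_def]

theorem Hn.gal_acts (H : Hn T j p c) (h : σ ∈ gal k T j c) :
    ∃ b, IsCoprime p b ∧ Acts T j c σ b := by
  obtain ⟨b, e⟩ := (mem_gal.1 h).le ⟨c, ⟨1, by simp⟩, rfl⟩
  obtain ⟨_, ⟨a, rfl⟩, e'⟩ := (mem_gal.1 h).ge ⟨1, rfl⟩
  refine ⟨b, ?_, 1, one_ne_zero, by rw [map_one, one_mul]; exact e.symm⟩
  simp only [comm_phi, ← e, ← Module.End.mul_apply, ← map_mul] at e'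
  obtain ⟨u, hu⟩ := (lev_iff H.lev (1 - a * b)).1 (by
    rw [map_sub, LinearMap.sub_apply, e', sub_self])
  exact ⟨u, a, by linear_combination -hu⟩

theorem Hn.acts_congr (H : Hn T j p c) (h : Acts T j c σ b) (e : p ∣ b - b') :
    Acts T j c σ b' := by
  rw [Acts, H.orb_eq, ← H.psi_congr e, ← H.orb_eq]
  exact h

theorem Hn.acts_ext (H : Hn T j p c) (h : Acts T j c σ b) (h' : Acts T j c τ b)
    (hK : ∀ y ∈ Fsep F Ω, σ y = τ y) {z : Ω} (hz : z ∈ L1 T j p c) : σ z = τ z := by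
  let M : IntermediateField (Fsep F Ω) Ω := ((σ : Ω →+* Ω).eqLocusField
    (τ : Ω →+* Ω)).toIntermediateField fun y => hK y.1 y.2
  refine (IntermediateField.adjoin_le_iff (T := M)).2 ?_ hz
  rintro _ ⟨i, rfl⟩
  change σ _ = τ _
  simp only [cw]
  split_ifs
  · rw [H.acts_psi h, H.acts_psi h']
  · rw [H.acts_resc h, H.acts_resc h']

theorem Hn.acts_of_pow (H : Hn T j p c) (hb : IsCoprime p b)
    (e : σ (resc k j c (0 : Fin (s + 1))) = resc k j (orb k T j c b) 0) : Acts T j c σ b := by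
  have h0 := (H.mul hb).ne
  simp only [resc, g_zero, one_mul, map_pow] at e
  obtain ⟨β, hβ⟩ := mem_of_pow_q (k := k) (b := σ c / orb k T j c b) (by
    have := wt_succ (k := k) (0 : Fin (s + 1))
    rw [Fin.val_zero, zero_add, pow_one] at this
    rw [← this, pow_succ, div_pow, e, div_self (pow_ne_zero _ h0), one_mul])
  refine ⟨β, fun e => ?_, by rw [hβ, div_mul_cancel₀ _ h0]⟩
  rw [e, map_zero] at hβ
  exact div_ne_zero ((_root_.map_ne_zero σ).2 H.ne) h0 hβ.symm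

theorem Hn.map_R (H : Hn T j p c) (h : σ ∈ gal k T j c) {z : Ω} (hz : z ∈ R1 T j p c) :
    σ z ∈ R1 T j p c := by
  obtain ⟨b, hb, h⟩ := H.gal_acts h
  refine H.R_le (U := (R1 T j p c).comap (σ : Ω →+* Ω)) (fun y hy => K_R (map_Fsep σ hy))
    (fun a ha => ?_) (fun l => ?_) hz
  · have : Un (R1 T j p c) (σ (psi k T j c a)) := by
      rw [H.acts_psi h]
      exact un_div (H.psi_un fun h => ha (hb.dvd_of_dvd_mul_right h))
        (H.psi_un (nd_cop H.pos hb))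
    exact ⟨this.1, by simpa using this.2.1, H.psi_ne ha⟩
  · change σ _ ∈ R1 T j p c
    rw [H.acts_resc h]
    exact mul_mem (H.resc_R l) (pow_mem (H.psi_R b).1 _)

theorem Hn.map_un (H : Hn T j p c) (h : σ ∈ gal k T j c) {z : Ω} (hz : Un (R1 T j p c) z) :
    Un (R1 T j p c) (σ z) :=
  ⟨H.map_R h hz.1, by simpa using H.map_R h hz.2.1, (_root_.map_ne_zero σ).2 hz.2.2⟩

variable [IsSepClosure E Ω]

theorem Hn.sep (H : Hn T j p c) : Algebra.IsSeparable (L1 T j p c) Ω :=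
  sep_of_gen (E := E) (jj Ω j) E_mem' _ fun i =>
    isSeparable_algebraMap (⟨jj Ω j i, H.g_L i.succ⟩ : L1 T j p c)

theorem Hn.indep (H : Hn T j p c) : AlgebraicIndependent (Fsep F Ω) (ww T j p c) :=
  indep_of_sep (jj_indep (j := j)) H.sep

theorem Hn.lin_ne (H : Hn T j p c) :
    ∀ x ∈ {x | ∃ a, ¬ p ∣ a ∧ G.lin s p (Fsep F Ω) a = x}, x ≠ 0 ∧ x.totalDegree ≤ 1 := by
  rintro _ ⟨a, ha, rfl⟩
  exact ⟨fun e => H.psi_ne ha (by rw [← H.lin, e, map_zero]), deg_lin a⟩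

theorem Hn.nrm (H : Hn T j p c) : Nrm (R1 T j p c) (L1 T j p c).toSubfield :=
  (locM_nrm H.indep fun x hx => (H.lin_ne x hx).1).1

theorem Hn.ufd (H : Hn T j p c) : UniqueFactorizationMonoid (R1 T j p c) :=
  (locM_nrm H.indep fun x hx => (H.lin_ne x hx).1).2

theorem Hn.map_L (H : Hn T j p c) (h : σ ∈ gal k T j c) {z : Ω} (hz : z ∈ L1 T j p c) :
    σ z ∈ L1 T j p c := by
  obtain ⟨a, b, _, rfl⟩ := H.nrm.frac z hz
  rw [map_div₀]
  exact div_mem (H.R_L (H.map_R h a.2)) (H.R_L (H.map_R h b.2))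

theorem Hn.le (H : Hn T j p c) {z : Ω} (hz : z ∈ funField k T j c) : z ∈ L1 T j p c := by
  have hj : IntermediateField.adjoin (Fsep F Ω) (Set.range (jj Ω j)) ≤ L1 T j p c :=
    IntermediateField.adjoin_le_iff.2 (by
      rintro _ ⟨i, rfl⟩
      exact H.g_L i.succ)
  let M : IntermediateField E Ω :=
    (L1 T j p c).toSubfield.toIntermediateField fun e => hj (E_mem' e)
  change z ∈ M
  rw [← InfiniteGalois.fixedField_fixingSubgroup M, IntermediateField.mem_fixedField_iff]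
  intro σ hσ
  rw [IntermediateField.mem_fixingSubgroup_iff] at hσ
  refine mem_funField.1 hz σ (H.acts_gal (H.acts_of_pow isCoprime_one_right ?_) isCoprime_one_right)
    fun y hy => hσ y (H.R_L (K_R hy))
  rw [hσ _ (H.R_L (H.resc_R 0)), H.orb_eq, H.sol.one, one_mul]

theorem Hn.exists_acts (H : Hn T j p c) (hb : IsCoprime p b) (ρ : Fsep F Ω ≃ₐ[F] Fsep F Ω) :
    ∃ σ : Ω ≃ₐ[E] Ω, (∀ y : Fsep F Ω, σ y = ρ y) ∧ Acts T j c σ b := by
  have := IsSepClosure.sep_closed E (K := Ω)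
  have H' := H.mul hb
  obtain ⟨τ, hτ⟩ := exists_tau H.indep H'.indep (ρ : Fsep F Ω →+* Fsep F Ω) H.sep
  have hK : ∀ y : Fsep F Ω, τ y = ρ y := fun y => by simpa using hτ (MvPolynomial.C y)
  have hF : ∀ a : F, τ (algebraMap F Ω a) = algebraMap F Ω a := fun a =>
    (hK (algebraMap F _ a)).trans (congrArg Subtype.val (ρ.commutes a))
  have hψ : ∀ a, τ (psi k T j c a) = psi k T j (orb k T j c b) a := fun a => by
    rw [← H.lin, hτ, ← H'.lin]
    congr 1
    simp only [G.lin, map_sum, map_mul, MvPolynomial.map_C]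
    refine Finset.sum_congr rfl fun i _ => ?_
    rw [IsScalarTower.algebraMap_apply k F (Fsep F Ω), RingHom.coe_coe, ρ.commutes]
    congr 1
    refine Fin.cases ?_ (fun i => ?_) i <;> simp [hX]
  have hG : (fun l => τ (resc k j c l)) = resc k j (orb k T j c b) :=
    N.sol_uniq H.ne0 ⟨H'.sol.one, H'.sol.ker, fun a => by
      simpa [hψ, hF] using congrArg τ (H.sol.eq a)⟩ H'.sol fun l hl => by
      obtain ⟨i, _, h⟩ := N.cw_high (ψ := psi k T j c) H.pos hl
      obtain ⟨i', e, h'⟩ := N.cw_high (ψ := psi k T j (orb k T j c b)) H.pos hl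
      obtain rfl : i = i' := Fin.succ_injective _ (by simp [*])
      simpa [h, h'] using hτ (MvPolynomial.X i)
  have hE : ∀ e : E, τ (algebraMap E Ω e) = algebraMap E Ω e := fun e => by
    refine (IntermediateField.adjoin_le_iff (T := (τ.eqLocusField
      (RingHom.id Ω)).toIntermediateField hF)).2 ?_ (E_mem (j := j) e)
    rintro _ ⟨i, rfl⟩
    change τ (g Ω j i.succ) = g Ω j i.succ
    conv_lhs => rw [g_eq (k := k) H.ne]
    rw [map_div₀, map_pow, congrFun hG, congrFun hG, ← g_eq H'.ne]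
  exact ⟨AlgEquiv.ofBijective (⟨τ, hE⟩ : Ω →ₐ[E] Ω) (AlgHom.normal_bijective E Ω Ω _), hK,
    H.acts_of_pow hb (congrFun hG 0)⟩

variable (T j) in
/-- The point attached to a residue class. -/
noncomputable def pb (p : k[X]) (c : Ω) : AdjoinRoot p →ₗ[k] Ω := psi k T j c ∘ₗ sec p

theorem Hn.pb_mk (H : Hn T j p c) (a : k[X]) :
    pb T j p c (AdjoinRoot.mk p a) = psi k T j c a :=
  H.psi_congr (AdjoinRoot.mk_eq_mk.1 (mk_sec _))

theorem Hn.pb_un (H : Hn T j p c) {x : AdjoinRoot p} (h : x ≠ 0) :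
    Un (R1 T j p c) (pb T j p c x) := H.psi_un (nd_sec h)

theorem Hn.nontriv (H : Hn T j p c) : Nontrivial (AdjoinRoot p) :=
  AdjoinRoot.nontrivial p (degree_ne_of_natDegree_ne (n := 0) H.pos.ne')

theorem Hn.pb_un' (H : Hn T j p c) (g : (AdjoinRoot p)ˣ) : Un (R1 T j p c) (pb T j p c g) :=
  have := H.nontriv
  H.pb_un g.ne_zero

theorem Hn.pb_C (H : Hn T j p c) (β : k) :
    pb T j p c (algebraMap k _ β) = algebraMap k Ω β := (H.pb_mk (C β)).trans (psi_C H.ne β)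

variable (T j) in
/-- Lifts of the elements of the Galois group of `X_1(p)` over `X_0(p)`. -/
structure Sec (p : k[X]) (c : Ω) (S : (AdjoinRoot p)ˣ → Ω ≃ₐ[E] Ω) : Prop extends Hn T j p c where
  fix : ∀ g, ∀ y ∈ Fsep F Ω, S g y = y
  acts : ∀ g, Acts T j c (S g) (sec p g)

theorem Hn.exists_sec (H : Hn T j p c) : ∃ S, Sec T j p c S := by
  choose S h1 h2 using fun g : (AdjoinRoot p)ˣ => H.exists_acts (cop_sec g) AlgEquiv.refl
  exact ⟨S, H, fun g y hy => h1 g ⟨y, hy⟩, h2⟩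

variable {S : (AdjoinRoot p)ˣ → Ω ≃ₐ[E] Ω}

theorem Sec.gal (H : Sec T j p c S) (g : (AdjoinRoot p)ˣ) : S g ∈ gal k T j c :=
  H.acts_gal (H.acts g) (cop_sec g)

theorem Sec.pb (H : Sec T j p c S) (g : (AdjoinRoot p)ˣ) (x : AdjoinRoot p) :
    S g (pb T j p c x) = pb T j p c (g * x) / pb T j p c g := by
  refine (H.acts_psi (H.acts g) _).trans ?_
  rw [← H.pb_mk, map_mul, mk_sec, mk_sec, mul_comm]
  rfl

theorem Sec.resc (H : Sec T j p c S) (g : (AdjoinRoot p)ˣ) (l : Fin (s + 1)) :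
    S g (resc k j c l) = resc k j c l * N.pb T j p c g ^ wt k l := H.acts_resc (H.acts g) l

theorem Sec.mul (H : Sec T j p c S) (g h : (AdjoinRoot p)ˣ) {z : Ω} (hz : z ∈ L1 T j p c) :
    S g (S h z) = S (g * h) z :=
  H.acts_ext (H.acts_congr ((H.acts g).mul (H.acts h)) (AdjoinRoot.mk_eq_mk.1 (by
    rw [map_mul, mk_sec, mk_sec, mk_sec, mul_comm, Units.val_mul]))) (H.acts _)
    (fun y hy => by rw [AlgEquiv.mul_apply, H.fix _ y hy, H.fix _ y hy, H.fix _ y hy]) hz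

theorem Sec.triv (H : Sec T j p c S) {g : (AdjoinRoot p)ˣ} {β : k} (hβ : β ≠ 0)
    (h : (g : AdjoinRoot p) = algebraMap k _ β) {z : Ω} (hz : z ∈ L1 T j p c) : S g z = z :=
  H.acts_ext (H.acts_congr (H.acts g) (AdjoinRoot.mk_eq_mk.1 ((mk_sec _).trans h))) (acts_one hβ)
    (H.fix g) hz

theorem Sec.one (H : Sec T j p c S) {z : Ω} (hz : z ∈ L1 T j p c) : S 1 z = z :=
  H.triv one_ne_zero (map_one _).symm hz

theorem Sec.of_gal (H : Sec T j p c S) (hτ : τ ∈ MP_7c5a52_nt.gal k T j c)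
    (hK : ∀ y ∈ Fsep F Ω, τ y = y) : ∃ g, ∀ z ∈ L1 T j p c, τ z = S g z := by
  obtain ⟨b, hb, h⟩ := H.gal_acts hτ
  obtain ⟨g, hg⟩ := exists_unit hb
  exact ⟨g, fun z hz => H.acts_ext h (H.acts_congr (H.acts g)
    (AdjoinRoot.mk_eq_mk.1 ((mk_sec _).trans hg))) (fun y hy => by rw [hK y hy, H.fix g y hy]) hz⟩

theorem Sec.inv (H : Sec T j p c S) {z : Ω} (hz : z ∈ L1 T j p c) (e : ∀ g, S g z = z) :
    z ∈ funField k T j c := mem_funField.2 fun τ hτ hK => by
  obtain ⟨g, h⟩ := H.of_gal hτ hK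
  rw [h z hz, e]

theorem Sec.fix_L (H : Sec T j p c S) (g : (AdjoinRoot p)ˣ) {z : Ω} (hz : z ∈ funField k T j c) :
    S g z = z := mem_funField.1 hz _ (H.gal g) (H.fix g)

theorem Sec.nm_fun (H : Sec T j p c S) [Fintype (AdjoinRoot p)ˣ] {z : Ω} (hz : z ∈ L1 T j p c) :
    ∏ g, S g z ∈ funField k T j c := by
  refine H.inv (prod_mem fun g _ => H.map_L (H.gal g) hz) fun g => ?_
  rw [map_prod]
  exact Fintype.prod_equiv (Equiv.mulLeft g) _ _ fun h => H.mul g h hz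

end Pool.Agent.P.MP_7c5a52_nt.N
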