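import Pool.Agent.P.MP_7c5a52_nt.N.A

/-! Prime divisors of `X_0^r(n)` and prime divisors of the ring of `Y_1(n)`. -/

open Polynomial

set_option linter.unusedSectionVars false

namespace Pool.Agent.P.MP_7c5a52_nt.N

open G X

variable {k F E Ω : Type} [Field k] [Fintype k] [Field F] [Field E] [Field Ω] [Algebra k Ω]
  [Algebra F Ω] [Algebra E Ω] {T : F} {s : ℕ} {j : Fin s → E} [Algebra k F] [Algebra F E]
  [IsScalarTower F E Ω] [IsScalarTower k F Ω] [GenJ F j] [GenT k T] {p : k[X]} {c : Ω}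
  [IsSepClosure E Ω] {i : Fin (s + 1)} {V W U : Subring Ω}

theorem Hn.chart (H : Hn T j p c) (i : Fin (s + 1)) :
    Nrm (chart k T j c i) (funField k T j c).toSubfield ∧ ∀ P : Ideal (chart k T j c i), P.IsPrime →
      P.height = 1 → ∀ (a b : Fin s) (x y : chart k T j c i), a ≠ b →
      (x : Ω) = YY k Ω j i (i.succAbove a) →
      (y : Ω) = YY k Ω j i (i.succAbove b) → x ∈ P → y ∈ P → False := by
  let v : Fin s → Ω := fun l => YY k Ω j i (i.succAbove l)
  let A := Algebra.adjoin (Fsep F Ω) (Set.range v)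
  let N := IntermediateField.adjoin (Fsep F Ω) (Set.range v)
  have hY : ∀ l, YY k Ω j i l ∈ A := fun l => by
    rcases eq_or_ne l i with rfl | h
    · rw [YY_self F]; exact one_mem _
    · obtain ⟨l, rfl⟩ := Fin.exists_succAbove_eq h
      exact Algebra.subset_adjoin ⟨l, rfl⟩
  have hYN : ∀ l, YY k Ω j i l ∈ N := fun l => IntermediateField.algebra_adjoin_le_adjoin _ _ (hY l)
  have hsep : Algebra.IsSeparable N Ω := sep_of_gen (E := E) (jj Ω j) E_mem' _ fun l => by
    refine sep_of_pow_mem (n := wt k i * wt k (0 : Fin (s + 1)))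
      (by rw [Nat.cast_mul]; exact mul_ne_zero (wt_cast i) (wt_cast 0)) (g_ne F _) ?_
    have : jj Ω j l ^ (wt k i * wt k (0 : Fin (s + 1))) =
        YY k Ω j i l.succ ^ wt k (0 : Fin (s + 1)) / YY k Ω j i 0 ^ wt k l.succ := by
      have := g_ne F (Ω := Ω) (j := j) i
      simp only [YY, g_zero, jj, div_pow, one_pow, ← pow_mul, mul_comm (wt k (0 : Fin (s + 1)))]
      field_simp
    rw [this]
    exact div_mem (pow_mem (hYN _) _) (pow_mem (hYN _) _)
  refine chart_nrm v (indep_of_sep (jj_indep (j := j)) hsep) hsep _ (fun a => K_fun a.2)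
    (fun l => (base_le i (YY_mem i _)).2) (ww T j p c) (fun z hz => H.le hz) _ fun z => ?_
  rw [mem_chart, integral_iff (A := A)]
  · rfl
  · let B : Subalgebra (Fsep F Ω) Ω :=
      { chartBase k F Ω j i with algebraMap_mem' := fun a => K_mem i a.2 }
    exact Algebra.adjoin_le (S := B) (by rintro _ ⟨l, rfl⟩; exact YY_mem i _)
  · refine (Subring.closure_le (t := (integralClosure A Ω).toSubring)).2 ?_
    rintro _ (h | ⟨a, m, h, rfl⟩)
    · exact isIntegral_algebraMap (x := (⟨_, A.algebraMap_mem ⟨_, h⟩⟩ : A))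
    · refine IsIntegral.of_pow (Nat.pos_of_ne_zero (wt_ne (k := k) i)) ?_
      rw [mono_pow h]
      have hm : ∏ l, YY k Ω j i l ^ a l ∈ A := prod_mem fun l _ => pow_mem (hY l) _
      exact isIntegral_algebraMap (x := (⟨_, hm⟩ : A))

theorem Hn.dvr (H : Hn T j p c) (hV : V ∈ primeDiv k T j c) : IsDiscreteValuationRing V := by
  obtain ⟨i, P, hP, h1, hV⟩ := hV
  exact (H.chart i).1.dvr hP h1 hV

theorem Hn.ord (H : Hn T j p c) (hV : V ∈ primeDiv k T j c) {u : Ω} (hu : u ∈ funField k T j c)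
    (h0 : u ≠ 0) : ∃ n, IsOrd V u n := by
  obtain ⟨i, P, hP, h1, hV⟩ := hV
  exact (H.chart i).1.exists_ord hP h1 hV hu h0

theorem Hn.icl (H : Hn T j p c) (hV : V ∈ primeDiv k T j c) :
    ICl V (funField k T j c).toSubfield ∧ V ≤ (funField k T j c).toSubring ∧
      ∀ y ∈ Fsep F Ω, y ∈ V := by
  obtain ⟨i, P, hP, h1, hV⟩ := hV
  exact ⟨loc_icl (H.chart i).1 hP hV, loc_le (H.chart i).1 hV,
    fun y hy => IsLoc.le hP hV (base_le i (K_mem i hy))⟩

theorem exists_big (hp : p ≠ 0) (hc : c ≠ 0) (h0 : psi k T j c p = 0) {W : ValuationSubring Ω}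
    (hK : ∀ y ∈ Fsep F Ω, y ∈ W) :
    ∃ l : Fin (s + 1), 1 ≤ W.valuation (resc k j c l) := by
  by_contra! hn
  have hT : ∀ a : k[X], aeval (TT Ω T) a ∈ Fsep F Ω := fun a => by
    rw [TT, aeval_algebraMap_apply]; exact IntermediateField.algebraMap_mem _ _
  have le1 := fun y hy => (W.valuation_le_one_iff y).2 (hK y hy)
  have key : ∀ a : k[X], W.valuation (psi k T j c a - aeval (TT Ω T) a) < 1 := fun a => by
    induction a using Polynomial.induction_on with
    | C a => simp [psi_C hc]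
    | add a b ha hb =>
      rw [map_add, map_add, add_sub_add_comm]
      exact W.valuation.map_add_lt ha hb
    | monomial n a ih =>
      rw [pow_succ', mul_left_comm]
      generalize C a * X ^ n = a at *
      have h1 : W.valuation (psi k T j c a) ≤ 1 := by
        rw [← sub_add_cancel (psi k T j c a) (aeval (TT Ω T) a)]
        exact W.valuation.map_add_le ih.le (le1 _ (hT a))
      rw [sub_eq_iff_eq_add.1 (psi_eq hc a).symm, map_mul, aeval_X, add_sub_assoc, ← mul_sub]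
      refine W.valuation.map_add_lt (W.valuation.map_sum_lt one_ne_zero fun l _ => ?_) ?_
      · rw [map_mul, map_pow]
        exact mul_lt_one_of_lt_of_le (hn l) (pow_le_one₀ zero_le h1)
      · rw [map_mul, mul_comm]
        exact mul_lt_one_of_lt_of_le ih (le1 _ T_K)
  have := key p
  rw [h0, zero_sub, Valuation.map_neg,
    val_un le_rfl (un_K (U := W.toSubring) hK (hT p) (aeval_TT hp))] at this
  exact lt_irrefl _ this

theorem big (hp : p ≠ 0) (hc : c ≠ 0) (h0 : psi k T j c p = 0) {W : ValuationSubring Ω}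
    (hK : ∀ y ∈ Fsep F Ω, y ∈ W) (hY : ∀ l, YY k Ω j i l ∈ W) :
    1 ≤ W.valuation (resc k j c i) := by
  obtain ⟨l, hl⟩ := exists_big hp hc h0 hK
  exact (one_le_pow_iff (wt_ne l)).1 ((one_le_pow₀ hl).trans (val_YY F hc (hY l)))

/-- Where the last coefficient does not vanish the torsion points stay finite. -/
theorem small (hp : p ≠ 0) (hc : c ≠ 0) (h0 : psi k T j c p = 0) {W : ValuationSubring Ω}
    (hK : ∀ y ∈ Fsep F Ω, y ∈ W) (hY : ∀ l, YY k Ω j (Fin.last s) l ∈ W) :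
    W.valuation (resc k j c (Fin.last s)) ≤ 1 := by
  by_contra! hn
  have hq : 1 < Fintype.card k := Fintype.one_lt_card
  have le1 := fun y hy => (W.valuation_le_one_iff y).2 (hK y hy)
  have step : ∀ a : k[X], 1 ≤ W.valuation (psi k T j c a) →
      W.valuation (psi k T j c a) < W.valuation (psi k T j c (X * a)) := fun a ha => by
    have h1 : W.valuation (psi k T j c a) < W.valuation (resc k j c (Fin.last s) *
        psi k T j c a ^ Fintype.card k ^ ((Fin.last s).1 + 1)) := by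
      rw [map_mul, map_pow]
      exact (le_self_pow₀ ha (pow_ne_zero _ q_ne)).trans_lt
        (lt_mul_of_one_lt_left (pow_pos (zero_lt_one.trans_le ha) _) hn)
    rw [sub_eq_iff_eq_add.1 (psi_eq hc a).symm, Fin.sum_univ_castSucc, add_right_comm,
      Valuation.map_add_eq_of_lt_right _ (W.valuation.map_add_lt
        (W.valuation.map_sum_lt ((zero_le.trans_lt h1).ne') fun l _ => ?_) ?_)]
    · exact h1
    swap
    · rw [map_mul, map_mul, map_pow, map_pow]
      refine mul_lt_mul_of_pos_of_nonneg' ?_ (pow_le_pow_right₀ ha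
        (Nat.pow_le_pow_right hq.le (by simp))) (pow_pos (zero_lt_one.trans_le ha) _) zero_le
      refine lt_of_pow_lt_pow_left₀ (wt k (Fin.last s)) zero_le
        ((val_YY F hc (hY _)).trans_lt (pow_lt_pow_right₀ hn ?_))
      have := wt_succ (k := k) l.castSucc
      have := wt_succ (k := k) (Fin.last s)
      have := Nat.pow_lt_pow_right hq (Nat.add_lt_add_right (Fin.castSucc_lt_last l) 1)
      omega
    · rw [map_mul]
      exact (mul_le_of_le_one_left zero_le (le1 _ T_K)).trans_lt h1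
  have mono : StrictMono fun n : ℕ => W.valuation (psi k T j c (X ^ n)) := by
    have h1 : ∀ n : ℕ, 1 ≤ W.valuation (psi k T j c (X ^ n)) := fun n => by
      induction n with
      | zero => simp [psi_one hc]
      | succ n ih => exact ih.trans (pow_succ' (X : k[X]) n ▸ step _ ih).le
    exact strictMono_nat_of_lt_succ fun n => pow_succ' (X : k[X]) n ▸ step _ (h1 n)
  have hv : ∀ (a : k) (n : ℕ), W.valuation (psi k T j c (C a * X ^ n)) =
      W.valuation (algebraMap k Ω a) * W.valuation (psi k T j c (X ^ n)) := fun a n => by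
    rw [C_mul', map_smul, Algebra.smul_def, map_mul]
  have h2 : W.valuation (psi k T j c (C p.leadingCoeff * X ^ p.natDegree)) =
      W.valuation (psi k T j c (X ^ p.natDegree)) := by
    rw [hv, val_un le_rfl (un_K (U := W.toSubring) hK (k_K _)
      ((_root_.map_ne_zero _).2 (leadingCoeff_ne_zero.2 hp))), one_mul]
  have h3 : W.valuation (psi k T j c (X ^ p.natDegree)) ≠ 0 :=
    (zero_lt_one.trans_le (by simpa [psi_one hc] using mono.monotone (Nat.zero_le _))).ne'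
  have h4 := congrArg W.valuation h0
  rw [p.as_sum_range_C_mul_X_pow, Finset.sum_range_succ, map_add, map_sum, coeff_natDegree,
    Valuation.map_add_eq_of_lt_right _ (W.valuation.map_sum_lt (h2 ▸ h3) fun n hn => ?_), h2,
    map_zero] at h4
  · exact h3 h4
  · rw [h2, hv]
    exact (mul_le_of_le_one_left zero_le (le1 _ (k_K _))).trans_lt (mono (Finset.mem_range.1 hn))

variable [DecidableEq Ω] {Cs : Finset Ω}

variable (T j) in
/-- `Cs` is the cyclic submodule. -/
structure Hw (p : k[X]) (c : Ω) (Cs : Finset Ω) : Prop extends Hn T j p c where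
  card : Cs.card = Fintype.card k ^ p.natDegree
  mem : ∀ y, y ∈ Cs ↔ ∃ a, orb k T j c a = y

theorem Hw.mem' (H : Hw T j p c Cs) {y : Ω} :
    y ∈ Cs.erase 0 ↔ ∃ a, ¬ p ∣ a ∧ orb k T j c a = y := by
  rw [Finset.mem_erase, H.mem]
  exact ⟨fun ⟨h, a, e⟩ => ⟨a, (lev_iff H.lev a).not.1 (e ▸ h :), e⟩,
    fun ⟨a, h, e⟩ => ⟨e ▸ (lev_iff H.lev a).not.2 h, a, e⟩⟩

theorem Hw.card' (H : Hw T j p c Cs) : (Cs.erase 0).card = Fintype.card k ^ p.natDegree - 1 := by
  rw [Finset.card_erase_of_mem ((H.mem 0).2 ⟨0, map_zero _⟩), H.card]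

theorem Hw.eta_eq (H : Hw T j p c Cs) (i : Fin (s + 1)) : eta k j Cs i =
    g Ω j i ^ (Fintype.card k ^ p.natDegree - 1) * (∏ y ∈ Cs.erase 0, y) ^ wt k i := by
  simp only [MP_7c5a52_nt.X.eta, resc, Finset.prod_mul_distrib, Finset.prod_const, Finset.prod_pow, H.card']

theorem Hw.eta_fun (H : Hw T j p c Cs) : eta k j Cs i ∈ funField k T j c :=
  H.eta_eq i ▸ mul_mem (pow_mem (g_fun i) _) (pow_mem (h_mem H.mem) _)

theorem Hw.eta_ne (H : Hw T j p c Cs) : eta k j Cs i ≠ 0 :=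
  H.eta_eq i ▸ mul_ne_zero (pow_ne_zero _ (g_ne F i)) (pow_ne_zero _ h_ne)

theorem Hn.resc_orb (H : Hn T j p c) (a : k[X]) (l : Fin (s + 1)) :
    resc k j (orb k T j c a) l = resc k j c l * psi k T j c a ^ wt k l := by
  rw [resc, resc, H.orb_eq]; ring

theorem Hw.eta_un (H : Hw T j p c Cs) :
    Un (R1 T j p c) (eta k j Cs i / resc k j c i ^ (Fintype.card k ^ p.natDegree - 1)) := by
  rw [MP_7c5a52_nt.X.eta, ← H.card', ← Finset.prod_const, ← Finset.prod_div_distrib]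
  refine un_prod fun y hy => ?_
  obtain ⟨a, ha, rfl⟩ := H.mem'.1 hy
  rw [H.resc_orb, mul_div_cancel_left₀ _ (resc_ne F H.ne i)]
  exact (H.psi_un ha).pow _

theorem Hw.eta_R (H : Hw T j p c Cs) : eta k j Cs i ∈ R1 T j p c := by
  have := mul_mem (H.eta_un (i := i)).1
    (pow_mem (H.resc_R i) (Fintype.card k ^ p.natDegree - 1))
  rwa [div_mul_cancel₀ _ (pow_ne_zero _ (resc_ne F H.ne i))] at this

theorem Hw.tors (H : Hw T j p c Cs) {y : Ω} (hy : y ∈ Cs.erase 0) :
    y ≠ 0 ∧ psi k T j y p = 0 := by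
  obtain ⟨a, rfl⟩ := (H.mem y).1 (Finset.mem_of_mem_erase hy)
  refine ⟨(Finset.mem_erase.1 hy).1, ?_⟩
  rw [psi_apply, ← orb_apply, orb_orb, orb_apply, (lev_iff H.lev _).2 (dvd_mul_right _ _), zero_div]

theorem Hw.big' (H : Hw T j p c Cs) {W : ValuationSubring Ω} (hK : ∀ y ∈ Fsep F Ω, y ∈ W)
    (hY : ∀ l, YY k Ω j i l ∈ W) {y : Ω} (hy : y ∈ Cs.erase 0) :
    1 ≤ W.valuation (resc k j y i) := big H.ne0 (H.tors hy).1 (H.tors hy).2 hK hY

theorem Hw.eta_inv (H : Hw T j p c Cs) : (eta k j Cs i)⁻¹ ∈ chart k T j c i := by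
  refine ⟨int_of_val fun W hW => (W.valuation_le_one_iff _).1 ?_,
    (funField k T j c).inv_mem H.eta_fun⟩
  rw [map_inv₀, MP_7c5a52_nt.X.eta, map_prod]
  exact inv_le_one_of_one_le₀ (Finset.one_le_prod' fun y hy =>
    H.big' (fun y hy => hW (K_mem i hy)) (fun l => hW (YY_mem i l)) hy)

theorem Hw.R_val (H : Hw T j p c Cs) {W : ValuationSubring Ω} (hK : ∀ y ∈ Fsep F Ω, y ∈ W)
    (hY : ∀ l, YY k Ω j i l ∈ W) (he : eta k j Cs i ∈ W) :
    R1 T j p c ≤ W.toSubring ∧ W.valuation (resc k j c i) = 1 := by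
  have h1 : ∀ y ∈ Cs.erase 0, W.valuation (resc k j y i) = 1 := fun y hy => by
    refine le_antisymm (le_trans ?_ ((W.valuation_le_one_iff _).2 he)) (H.big' hK hY hy)
    rw [MP_7c5a52_nt.X.eta, map_prod]
    exact Finset.single_le_prod' (f := fun y => W.valuation (resc k j y i))
      (fun y hy => H.big' hK hY hy) hy
  have h2 := h1 c (H.mem'.2 ⟨1, nd_one H.pos, by simp [orb_apply]⟩)
  refine ⟨H.R_le hK (fun a ha => ?_) fun l => (W.valuation_le_one_iff _).1 ?_, h2⟩
  · have h3 := h1 _ (H.mem'.2 ⟨a, ha, rfl⟩)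
    rw [H.resc_orb, map_mul, h2, one_mul, map_pow] at h3
    have h4 : W.valuation (psi k T j c a) = 1 := le_antisymm
      ((pow_le_one_iff (wt_ne i)).1 h3.le) ((one_le_pow_iff (wt_ne i)).1 h3.ge)
    exact ⟨(W.valuation_le_one_iff _).1 h4.le, (W.valuation_le_one_iff _).1 (by simp [h4]),
      H.psi_ne ha⟩
  · have := val_YY F H.ne (hY l)
    rwa [h2, one_pow, pow_le_one_iff (wt_ne i)] at this

theorem Hn.chart_W (H : Hn T j p c) (hU : ICl U (L1 T j p c).toSubfield) (hR : R1 T j p c ≤ U)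
    (h : Un U (resc k j c i)) : MP_7c5a52_nt.chart k T j c i ≤ U :=
  chart_le hU (fun _ => H.le) (fun _ hy => hR (K_R hy)) fun l => by
    rw [YY_resc H.ne, div_eq_mul_inv]
    exact mul_mem (pow_mem (hR (H.resc_R l)) _) (h.pow _).2.1

/-- Prime divisors along which the cyclic submodule stays finite come from `Y_1(p)`. -/
theorem Hw.up (H : Hw T j p c Cs) (hV : V ∈ htOneLocs (chart k T j c i)) (he : eta k j Cs i ∈ V) :
    ∃ W ∈ htOneLocs (R1 T j p c), W ⊓ (funField k T j c).toSubring = V := by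
  obtain ⟨P, hP, h1, hV⟩ := hV
  obtain ⟨W, hW, hc⟩ := exists_center P hP
  have hW' : chart k T j c i ≤ W.toSubring := fun z hz => hW ⟨z, hz⟩
  obtain ⟨h2, h3⟩ := H.R_val (W := W) (fun y hy => hW' (base_le i (K_mem i hy)))
    (fun l => hW' (base_le i (YY_mem i l))) ((loc_val hP hV hW' hc).1 he)
  exact transfer (H.chart i).1 H.nrm hP h1 hV hW' hc h2 fun U a b d =>
    H.chart_W a b (d _ (b (H.resc_R i)) h3)

theorem Hn.map_W (H : Hn T j p c) {σ : Ω ≃ₐ[E] Ω} (hσ : σ ∈ gal k T j c)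
    (hW : W ∈ htOneLocs (R1 T j p c)) : W.map (σ : Ω →+* Ω) ∈ htOneLocs (R1 T j p c) :=
  map_ht σ (fun _ => H.map_R hσ) (fun _ => H.map_R (inv_mem hσ)) hW

theorem Hn.W_icl (H : Hn T j p c) (hW : W ∈ htOneLocs (R1 T j p c)) :
    ICl W (L1 T j p c).toSubfield := by
  obtain ⟨P, hP, _, hW⟩ := hW
  exact loc_icl H.nrm hP hW

theorem Hn.exists_un (H : Hn T j p c) (hW : W ∈ htOneLocs (R1 T j p c)) :
    ∃ l : Fin (s + 1), Un W (resc k j c l) := by
  obtain ⟨P, hP, _, hW⟩ := hW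
  obtain ⟨W', hW', hc⟩ := exists_center P hP
  obtain ⟨l, hl⟩ := exists_big H.ne0 H.ne ((H.sol.ker p).2 dvd_rfl) (W := W')
    fun y hy => hW' ⟨y, K_R hy⟩
  exact ⟨l, IsLoc.un hP hW (y := ⟨_, H.resc_R l⟩) ((hc _).not.1 (not_lt.2 hl))⟩

/-- Prime divisors of `Y_1(p)` lie above prime divisors. -/
theorem Hw.down (H : Hw T j p c Cs) (hW : W ∈ htOneLocs (R1 T j p c))
    (h : Un W (resc k j c i)) : W ⊓ (funField k T j c).toSubring ∈ htOneLocs (chart k T j c i) := by
  have := H.ufd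
  obtain ⟨π, hπ, hπW⟩ := ht_gen hW
  obtain ⟨S, hS⟩ := H.exists_sec
  obtain ⟨P, hP, _, hW1⟩ := id hW
  obtain ⟨W', hW', hc⟩ := exists_center P hP
  obtain ⟨w1, w2⟩ := loc_val hP hW1 (fun z hz => hW' ⟨z, hz⟩) hc
  have hB := (H.chart_W (H.W_icl hW) (ht_le hW) h).trans w1
  obtain ⟨Q, hQ, hcQ⟩ := exists_ctr W' hB
  obtain ⟨U, hU⟩ := exists_isLoc Q hQ
  obtain ⟨u1, u2⟩ := loc_val hQ hU hB hcQ
  have he : eta k j Cs i ∈ U := by
    have h1 := (un_mono (H.eta_un (i := i)) (ht_le hW)).mul (h.pow (Fintype.card k ^ p.natDegree - 1))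
    rw [div_mul_cancel₀ _ (pow_ne_zero _ h.2.2)] at h1
    simpa using (u2 _ (hU.le hQ H.eta_inv) (val_un w1 h1.inv)).2.1
  have := N.fin_root H.ne0
  have := Fintype.ofFinite (AdjoinRoot p)ˣ
  have hπ0 := irr_ne_zero hπ.irreducible
  have hn : ∀ n, S n π ∈ R1 T j p c := fun n => H.map_R (hS.gal n) π.2
  have hnR : ∏ n, S n π ∈ R1 T j p c := prod_mem fun n _ => hn n
  have hnL : ∏ n, S n π ∈ funField k T j c := hS.nm_fun (H.R_L π.2)
  obtain ⟨V, hV, h2, h3⟩ := exists_ht (H.chart i).1.noeth hQ hU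
    (loc_icl (H.chart i).1 hQ hU _ hnL (int_of_val fun W hW =>
      (H.R_val (fun y hy => hW (hU.le hQ (base_le i (K_mem i hy))))
        (fun l => hW (hU.le hQ (base_le i (YY_mem i l)))) (hW he)).1 hnR))
    (Finset.prod_ne_zero_iff.2 fun n _ => (_root_.map_ne_zero _).2 hπ0) fun hu => hπW (by
      classical
      have := w2 _ (ht_le hW hnR) (val_un u1 hu)
      rw [← Finset.mul_prod_erase _ _ (Finset.mem_univ 1), hS.one (H.R_L π.2)] at this
      exact un_of_mul (ht_le hW π.2) (ht_le hW (prod_mem fun n _ => hn _)) this)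
  obtain ⟨W2, hW2, rfl⟩ := H.up hV (h2 he)
  obtain ⟨n, h4⟩ : ∃ n, ¬ Un W2 (S n π) := by
    by_contra! h4
    have := un_prod (t := Finset.univ) fun n _ => h4 n
    exact h3 ⟨⟨this.1, hnL⟩, ⟨this.2.1, (funField k T j c).inv_mem hnL⟩, this.2.2⟩
  have hg' := inv_mem (hS.gal n)
  rw [ht_uniq hπ hW (H.map_W hg' hW2) hπW fun h5 => h4 ?_, ← map_inf hg', map_self hg' (fun y hy =>
    (S n).symm_apply_eq.2 (hS.fix n y hy).symm) inf_le_right]
  · exact hV
  · exact ⟨(mem_map _).1 h5.1, by simpa using (mem_map _).1 h5.2.1, (_root_.map_ne_zero _).2 hπ0⟩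

theorem Hw.down' (H : Hw T j p c Cs) (hW : W ∈ htOneLocs (R1 T j p c)) :
    W ⊓ (funField k T j c).toSubring ∈ primeDiv k T j c :=
  (H.exists_un hW).imp fun _ => H.down hW

/-- Functions that are regular everywhere are constant. -/
theorem Hn.const (H : Hn T j p c) {f : Ω} (hf : f ∈ funField k T j c)
    (h : ∀ V ∈ primeDiv k T j c, f ∈ V) : IsAlgebraic (Fsep F Ω) f := by
  have := IsSepClosure.sep_closed E (K := Ω)
  refine IsIntegral.isAlgebraic (int_of_val (U := (Fsep F Ω).toSubring) fun W hW => ?_ :)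
  choose x hx using fun l : Fin (s + 1) =>
    have := NeZero.mk (wt_cast (k := k) (Ω := Ω) l)
    IsSepClosed.exists_pow_nat_eq (g Ω j l) (wt k l)
  obtain ⟨i, hi⟩ := Finite.exists_max fun l => W.valuation (x l)
  refine chart_le (T := T) (c := c) (i := i) (val_icl W ⊤) (fun _ _ => trivial) hW (fun l => ?_)
    ((H.chart i).1.hartogs hf fun P V a b d => h V ⟨i, P, a, b, d⟩)
  refine (W.valuation_le_one_iff _).1 ?_
  rw [YY, map_div₀, ← hx, ← hx, ← pow_mul, ← pow_mul, mul_comm, map_pow, map_pow]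
  exact div_le_one_of_le₀ (pow_le_pow_left₀ zero_le (hi l) _) zero_le

/-- Prime divisors of the open part come from `Y_1(p)`. -/
theorem Hw.up' (H : Hw T j p c Cs) (hV : V ∈ primeDiv k T j c) (h : V ∉ cusps k T j c) :
    ∃ W ∈ htOneLocs (R1 T j p c), W ⊓ (funField k T j c).toSubring = V := by
  have h1 : MP_7c5a52_nt.chart k T j c (Fin.last s) ≤ V := by_contra fun h1 => h ⟨hV, h1⟩
  have h2 := (H.icl hV).1
  obtain ⟨i, hi⟩ := hV
  refine H.up hi (h2 _ H.eta_fun (int_of_val fun W hW => (W.valuation_le_one_iff _).1 ?_))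
  have hK : ∀ y ∈ Fsep F Ω, y ∈ W := fun y hy => hW (h1 (base_le _ (K_mem _ hy)))
  rw [MP_7c5a52_nt.X.eta, map_prod]
  refine Finset.prod_le_one' fun y hy => (pow_le_one_iff (wt_ne (k := k) (Fin.last s))).1 ?_
  have hY : ∀ l, YY k Ω j (Fin.last s) l ∈ W := fun l => hW (h1 (base_le _ (YY_mem _ l)))
  exact (val_YY F (H.tors hy).1 (hY i)).trans
    (pow_le_one₀ zero_le (small H.ne0 (H.tors hy).1 (H.tors hy).2 hK hY))

theorem Hn.codim (H : Hn T j p c) {i : Fin (s + 1)} {P : Ideal (MP_7c5a52_nt.chart k T j c i)}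
    (hP : P.IsPrime) (h1 : P.height = 1) {l l' : Fin (s + 1)} (hl : l ≠ l') :
    ⟨_, base_le i (YY_mem i l)⟩ ∉ P ∨ ⟨_, base_le i (YY_mem i l')⟩ ∉ P := by
  by_contra! hn
  have key : ∀ l, ⟨_, base_le i (YY_mem i l)⟩ ∈ P → ∃ a, i.succAbove a = l := fun l h =>
    Fin.exists_succAbove_eq fun e => (Ideal.ne_top_iff_one P).1 hP.ne_top (by
      rwa [show (1 : MP_7c5a52_nt.chart k T j c i) = ⟨_, base_le i (YY_mem i l)⟩ from
        Subtype.ext (e ▸ (YY_self F l).symm)])
  obtain ⟨a, rfl⟩ := key l hn.1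
  obtain ⟨b, rfl⟩ := key l' hn.2
  exact (H.chart i).2 P hP h1 a b _ _ (fun e => hl (e ▸ rfl)) rfl rfl hn.1 hn.2

/-- The class of `g_1` is locally that of a function on `X_0(p)`. -/
theorem Hw.exists_loc {j : Fin (s + 2) → E} [GenJ F j] (H : Hw T j p c Cs)
    (hW : W ∈ htOneLocs (R1 T j p c)) :
    ∃ f ∈ funField k T j c, f ≠ 0 ∧ Un W (resc k j c (0 : Fin (s + 3)) / f) := by
  by_cases h0 : Un W (resc k j c (0 : Fin (s + 3)))
  · exact ⟨1, one_mem _, one_ne_zero, by rwa [div_one]⟩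
  obtain ⟨i, hi⟩ := H.exists_un hW
  obtain ⟨P, hP, h1, hV⟩ := H.down hW hi
  have key : ∀ l, ⟨_, base_le i (YY_mem i l)⟩ ∉ P → Un W (resc k j c l) := fun l h => by
    have := (un_mono (a := YY k Ω j i l) (IsLoc.un hP hV h) inf_le_left).mul (hi.pow (wt k l))
    rw [YY_resc H.ne, div_mul_cancel₀ _ (pow_ne_zero _ hi.2.2)] at this
    exact un_of_pow (ht_le hW (H.resc_R l)) (wt_ne i) this
  have e1 := key _ ((H.codim hP h1 (l := 0) (l' := 1) (by simp)).resolve_left fun h => h0 (key _ h))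
  have e2 := key _ ((H.codim hP h1 (l := 0) (l' := 2)
    (Fin.ne_of_val_ne (by rw [Fin.val_two]; simp))).resolve_left fun h => h0 (key _ h))
  refine ⟨_, div_mem (pow_mem (g_fun 1) (Fintype.card k)) (g_fun 2),
    div_ne_zero (pow_ne_zero _ (g_ne F 1)) (g_ne F 2), ?_⟩
  have w0 := wt_succ (k := k) (0 : Fin (s + 3))
  have w1 := wt_succ (k := k) (1 : Fin (s + 3))
  have w2 := wt_succ (k := k) (2 : Fin (s + 3))
  simp only [Fin.val_zero, Fin.val_one, Fin.val_two] at w0 w1 w2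
  have w3 : wt k (2 : Fin (s + 3)) =
      wt k (0 : Fin (s + 3)) + wt k (1 : Fin (s + 3)) * Fintype.card k := by
    have : (wt k (1 : Fin (s + 3)) + 1) * Fintype.card k = wt k (2 : Fin (s + 3)) + 1 := by
      rw [w1, w2]; ring
    rw [zero_add, pow_one] at w0
    rw [add_mul, one_mul] at this
    omega
  convert un_div e2 (e1.pow (Fintype.card k)) using 1
  have := H.ne
  simp only [resc, g_zero, w3, mul_pow, pow_add, pow_mul]
  field_simp

end Pool.Agent.P.MP_7c5a52_nt.N
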