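import Pool.Agent.P.MP_7c5a52_nt.N.A

/-! Characters of `(A/n)^*` with values in the ground field, and elliptic points. -/

open Polynomial
open scoped LinearAlgebra.Projectivization

set_option linter.unusedSectionVars false

namespace Pool.Agent.P.MP_7c5a52_nt.N

open G X

variable {k Ω : Type} [Field k] [Fintype k] [Field Ω] [Algebra k Ω] {p π : k[X]}

/-- Reduction of units modulo a divisor. -/
noncomputable def rd (h : π ∣ p) : (AdjoinRoot p)ˣ →* (AdjoinRoot π)ˣ :=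
  Units.map (AdjoinRoot.algHomOfDvd k p π h : AdjoinRoot p →* AdjoinRoot π)

theorem rd_mk (h : π ∣ p) {g : (AdjoinRoot p)ˣ} {b : k[X]} (e : ↑g = AdjoinRoot.mk p b) :
    (rd h g : AdjoinRoot π) = AdjoinRoot.mk π b := by
  change AdjoinRoot.algHomOfDvd k p π h g = _
  rw [e, ← AdjoinRoot.aeval_eq, ← aeval_algHom_apply, AdjoinRoot.algHomOfDvd_root,
    AdjoinRoot.aeval_eq]

theorem dvd_pow_of {a : k[X]} (hp : p ≠ 0) (h : ∀ π, Irreducible π → π ∣ p → π ∣ a) :
    ∃ n, p ∣ a ^ n := by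
  induction p using UniqueFactorizationMonoid.induction_on_prime with
  | h₁ => exact absurd rfl hp
  | h₂ x hx => exact ⟨0, hx.dvd⟩
  | h₃ m π hm hπ ih =>
    obtain ⟨n, hn⟩ := ih hm fun π' h1 h2 => h π' h1 (h2.mul_left _)
    exact ⟨n + 1, pow_succ' a n ▸ mul_dvd_mul (h π hπ.irreducible (dvd_mul_right _ _)) hn⟩

theorem char_one (hp : p ≠ 0) (κ : (AdjoinRoot p)ˣ →* kˣ) {g : (AdjoinRoot p)ˣ}
    (h : ∀ π (hπ : π ∣ p), Irreducible π → rd hπ g = 1) : κ g = 1 := by
  obtain ⟨n, hn⟩ := dvd_pow_of (a := sec p g - 1) hp fun π h1 h2 => AdjoinRoot.mk_eq_mk.1 (by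
    rw [← rd_mk h2 (mk_sec _).symm, h π h2 h1, Units.val_one, map_one])
  have h1 : ∀ n : ℕ, ((g : AdjoinRoot p) - 1) ^ Fintype.card k ^ n = g ^ Fintype.card k ^ n - 1 :=
    fun n => by
      induction n with
      | zero => simp
      | succ n ih =>
        simpa only [map_sub, map_one, FiniteField.coe_frobeniusAlgHom, ← pow_mul, ← pow_succ] using
          congrArg (FiniteField.frobeniusAlgHom k (AdjoinRoot p)) ih
  have h2 := AdjoinRoot.mk_eq_zero.2 hn
  rw [map_pow, map_sub, mk_sec, map_one] at h2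
  have h3 : g ^ Fintype.card k ^ n = 1 := Units.ext (by
    rw [Units.val_pow_eq_pow_val, Units.val_one, ← sub_eq_zero, ← h1]
    exact pow_eq_zero_of_le (Nat.lt_pow_self Fintype.one_lt_card).le h2)
  refine Units.ext ?_
  rw [← FiniteField.pow_card_pow n (κ g : k), ← Units.val_pow_eq_pow_val, ← map_pow, h3, map_one]

theorem exists_crt (hp : p ≠ 0) (hπ : Irreducible π) (h : π ∣ p) (γ : (AdjoinRoot π)ˣ) :
    ∃ g, rd h g = γ ∧ ∀ π' (h' : π' ∣ p), Irreducible π' → ¬ π ∣ π' → rd h' g = 1 := by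
  have := Fact.mk hπ
  obtain ⟨t, p', h1, rfl⟩ := WfDvdMonoid.max_power_factor hp hπ
  obtain ⟨u, w, huw⟩ := hπ.coprime_iff_not_dvd.2 h1
  obtain ⟨a, ha⟩ := AdjoinRoot.mk_surjective (g := π) γ
  have e1 : AdjoinRoot.mk π (a * w * p' + u * π) = γ := by
    rw [← ha, AdjoinRoot.mk_eq_mk]
    exact ⟨u - a * u, by linear_combination a * huw⟩
  have e2 : p' ∣ a * w * p' + u * π - 1 := ⟨a * w - w, by linear_combination huw⟩
  obtain ⟨g, hg⟩ := exists_unit (p := π ^ t * p') (b := a * w * p' + u * π)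
    (IsCoprime.mul_left (hπ.coprime_iff_not_dvd.2 fun h2 =>
      γ.ne_zero (e1 ▸ AdjoinRoot.mk_eq_zero.2 h2)).pow_left
      ⟨w - a * w, 1, by linear_combination huw⟩)
  refine ⟨g, Units.ext ((rd_mk h hg).trans e1), fun π' h' h2 h3 => Units.ext ?_⟩
  rw [rd_mk h' hg, Units.val_one, ← map_one (AdjoinRoot.mk π'), AdjoinRoot.mk_eq_mk]
  refine ((h2.prime.dvd_or_dvd h').resolve_left fun h4 => h3 ?_).trans e2
  exact ((h2.associated_of_dvd hπ (h2.prime.dvd_of_dvd_pow h4))).symm.dvd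

/-- The norm characters generate all characters. -/
theorem chars (hp : p ≠ 0) (R : Subgroup ((AdjoinRoot p)ˣ →* kˣ))
    (h : ∀ π (hπ : π ∣ p), Irreducible π → ∃ χ ∈ R, ∀ g, algebraMap k (AdjoinRoot π) (χ g) =
      (rd hπ g ^ gs (Fintype.card k) π.natDegree : (AdjoinRoot π)ˣ))
    (κ : (AdjoinRoot p)ˣ →* kˣ) : κ ∈ R := by
  have key : ∀ m, m ∣ p → ∀ κ : (AdjoinRoot p)ˣ →* kˣ, ∃ χ ∈ R,
      (∀ g, (∀ π (hπ : π ∣ p), Irreducible π → π ∣ m → rd hπ g = 1) → χ g = 1) ∧
      ∀ g, (∀ π (hπ : π ∣ p), Irreducible π → ¬ π ∣ m → rd hπ g = 1) → κ g = χ g := fun m => by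
    induction m using UniqueFactorizationMonoid.induction_on_prime with
    | h₁ => exact fun h => absurd (zero_dvd_iff.1 h) hp
    | h₂ x hx =>
      exact fun _ κ => ⟨1, one_mem _, fun _ _ => rfl, fun g hg => char_one hp κ fun π h1 h2 =>
        hg π h1 h2 fun h3 => h2.not_isUnit (isUnit_of_dvd_unit h3 hx)⟩
    | h₃ m π hm hπ ih =>
      intro hd κ
      have ih' := ih ((dvd_mul_left _ _).trans hd)
      by_cases hc : π ∣ m
      · obtain ⟨χ, h1, h2, h3⟩ := ih' κ
        refine ⟨χ, h1, fun g hg => h2 g fun π' a b d => hg π' a b (d.mul_left _),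
          fun g hg => h3 g fun π' a b d => hg π' a b fun e => d ?_⟩
        exact (b.prime.dvd_or_dvd e).elim (fun e => e.trans hc) id
      have hπp : π ∣ p := (dvd_mul_right _ _).trans hd
      have := Fact.mk hπ.irreducible
      have := N.fin_root hπ.ne_zero
      have := Fintype.ofFinite (AdjoinRoot π)
      have hq : 1 < Fintype.card k := Fintype.one_lt_card
      obtain ⟨γ, hγ⟩ := IsCyclic.exists_monoid_generator (α := (AdjoinRoot π)ˣ)
      have ho := orderOf_eq_card_of_forall_mem_powers hγ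
      rw [Nat.card_units, Nat.card_eq_fintype_card, N.card_root hπ.ne_zero, ← gs_mul hq] at ho
      obtain ⟨g₀, a1, a2⟩ := exists_crt hp hπ.irreducible hπp γ
      obtain ⟨χ₀, b1, b2⟩ := h π hπp hπ.irreducible
      have inj := (algebraMap k (AdjoinRoot π)).injective
      obtain ⟨t, ht⟩ : ∃ t : ℕ, κ g₀ = χ₀ g₀ ^ t := by
        obtain ⟨i, hi⟩ := hγ (Units.map (algebraMap k (AdjoinRoot π) : k →* _) (κ g₀))
        obtain ⟨t, rfl⟩ : gs (Fintype.card k) π.natDegree ∣ i := by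
          refine Nat.dvd_of_mul_dvd_mul_right (Nat.sub_pos_of_lt hq) ?_
          rw [← ho, orderOf_dvd_iff_pow_eq_one, pow_mul, show γ ^ i = _ from hi, ← map_pow,
            ← map_one (Units.map (algebraMap k (AdjoinRoot π) : k →* _))]
          exact congrArg _ (Units.ext (FiniteField.pow_card_sub_one_eq_one _ (κ g₀).ne_zero))
        refine ⟨t, Units.ext (inj ?_)⟩
        rw [Units.val_pow_eq_pow_val, map_pow, b2, a1, ← Units.val_pow_eq_pow_val, ← pow_mul]
        exact (congrArg Units.val hi).symm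
      obtain ⟨χ, h1, h2, h3⟩ := ih' (κ / χ₀ ^ t)
      refine ⟨χ * χ₀ ^ t, mul_mem h1 (pow_mem b1 t), fun g hg => ?_, fun g hg => ?_⟩
      · have : χ₀ g = 1 := Units.ext (inj (by
          rw [b2, hg π hπp hπ.irreducible (dvd_mul_right _ _)]; simp))
        simp [this, h2 g fun π' a b d => hg π' a b (d.mul_left _)]
      · obtain ⟨i, hi⟩ := hγ (rd hπp g)
        have h4 := h3 (g / g₀ ^ i) fun π' a b d => by
          by_cases e : π ∣ π'
          · obtain ⟨x, hx⟩ := AdjoinRoot.mk_surjective (g := p) ↑(g / g₀ ^ i)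
            have h5 : rd hπp (g / g₀ ^ i) = 1 := by
              rw [_root_.map_div, map_pow, a1, show γ ^ i = _ from hi, div_self']
            have h6 := (rd_mk hπp hx.symm).symm.trans (congrArg Units.val h5)
            refine Units.ext ((rd_mk a hx.symm).trans (AdjoinRoot.mk_eq_mk.2 ?_ :
              _ = AdjoinRoot.mk π' 1))
            exact (hπ.irreducible.associated_of_dvd b e).symm.dvd.trans
              (AdjoinRoot.mk_eq_mk.1 (h6 : _ = AdjoinRoot.mk π 1))
          · rw [_root_.map_div, map_pow, a2 π' a b e, one_pow, div_one]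
            refine hg π' a b fun e' => (b.prime.dvd_or_dvd e').elim (fun e' => e ?_) d
            exact (b.associated_of_dvd hπ.irreducible e').symm.dvd
        have h5 : χ g₀ = 1 := h2 g₀ fun π' a b d => a2 π' a b fun e => hc (e.trans d)
        simpa [ht, h5, div_eq_iff_eq_mul, div_pow, pow_right_comm _ i t, mul_assoc] using h4
  obtain ⟨χ, h1, -, h2⟩ := key p dvd_rfl κ
  rwa [show κ = χ from MonoidHom.ext fun g => h2 g fun π a _ b => absurd a b]

theorem proj_prod {B : Type} [Field B] [Algebra k B] [Fintype (ℙ k B)] (b : Bˣ) :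
    ∃ t : kˣ, algebraMap k B t = (b ^ Fintype.card (ℙ k B) : Bˣ) ∧ ∀ μ : B →ₗ[k] Ω,
      ∏ x : ℙ k B, μ (b * x.rep) = algebraMap k Ω t * ∏ x : ℙ k B, μ x.rep := by
  have h : ∀ x : ℙ k B, ∃ a : kˣ, b * x.rep = (a : k) • (b • x).rep := fun x => by
    obtain ⟨a, ha⟩ := (Projectivization.mk_eq_mk_iff k _ _ (smul_ne_zero_iff_ne b |>.2
      x.rep_nonzero) (b • x).rep_nonzero).1 (by
        rw [← Projectivization.smul_mk b x.rep_nonzero, x.mk_rep, Projectivization.mk_rep])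
    exact ⟨a, ha.symm⟩
  choose a ha using h
  have key : ∀ (Ω : Type) [Field Ω] [Algebra k Ω] (μ : B →ₗ[k] Ω), ∏ x : ℙ k B, μ (b * x.rep) =
      algebraMap k Ω (∏ x, a x : kˣ) * ∏ x : ℙ k B, μ x.rep := fun Ω _ _ μ => by
    rw [← Equiv.prod_comp (MulAction.toPerm b) fun x : ℙ k B => μ x.rep, Units.coe_prod, map_prod,
      ← Finset.prod_mul_distrib]
    exact Finset.prod_congr rfl fun x _ => by rw [ha, map_smul, Algebra.smul_def]; rfl
  refine ⟨_, ?_, key Ω⟩
  have := key B LinearMap.id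
  simp only [LinearMap.id_apply, Finset.prod_mul_distrib, Finset.prod_const,
    Finset.card_univ] at this
  exact (mul_right_cancel₀ (Finset.prod_ne_zero_iff.2 fun x _ => x.rep_nonzero) this).symm

theorem exists_emb (hp : p ≠ 0) {L : Type} [Field L] [Algebra k L] [Finite L]
    (h : ∀ π, Irreducible π → π ∣ p → Module.finrank k L ∣ π.natDegree) :
    Nonempty (L →ₐ[k] AdjoinRoot p) := by
  have := N.fin_root hp
  have : Algebra.FormallyEtale k L := .of_isSeparable k L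
  have key : ∀ I : MaximalSpectrum (AdjoinRoot p), Nonempty (L →ₐ[k] AdjoinRoot p ⧸ I.asIdeal) :=
    fun I => by
      let := Ideal.Quotient.field I.asIdeal
      have := Finite.of_surjective _ (Ideal.Quotient.mk_surjective (I := I.asIdeal))
      have hi : IsIntegral k (Ideal.Quotient.mkₐ k I.asIdeal (AdjoinRoot.root p)) :=
        Algebra.IsIntegral.isIntegral _
      refine FiniteField.nonempty_algHom_of_finrank_dvd ((h _ (minpoly.irreducible hi)
        (minpoly.dvd k _ ?_)).trans ?_)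
      · rw [aeval_algHom_apply, AdjoinRoot.aeval_eq, AdjoinRoot.mk_self, map_zero]
      · exact minpoly.degree_dvd hi
  obtain ⟨f, -⟩ := Algebra.FormallySmooth.exists_lift (R := k) (A := L) _
    (IsArtinianRing.isNilpotent_nilradical (R := AdjoinRoot p))
    (((IsArtinianRing.quotNilradicalEquivPi _).symm.toAlgHom.restrictScalars k).comp
      (AlgHom.pi fun I => (key I).some))
  exact ⟨f⟩

/-- An elliptic point with its stabiliser. -/
theorem exists_ell [IsSepClosed Ω] (hp : 0 < p.natDegree) {e : ℕ} (he : e ≠ 0)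
    (h : ∀ π, Irreducible π → π ∣ p → e ∣ π.natDegree) :
    ∃ (χ : AdjoinRoot p →ₗ[k] Ω) (g : (AdjoinRoot p)ˣ), χ 1 = 1 ∧ (∀ x, x ≠ 0 → χ x ≠ 0) ∧
      (∀ x, χ x ^ Fintype.card k ^ p.natDegree = χ x) ∧ (∀ x, χ (g * x) = χ g * χ x) ∧
      ∀ m : ℤ, χ g ^ m = 1 ↔ ((Fintype.card k ^ e - 1 : ℕ) : ℤ) ∣ m := by
  have hp0 : p ≠ 0 := ne_zero_of_natDegree_gt hp
  obtain ⟨a, ha, ha'⟩ := exists_irr k (e - 1)
  obtain ⟨b, hb, hb'⟩ := exists_irr k (p.natDegree - 1)
  rw [Nat.sub_add_cancel (by omega)] at ha' hb'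
  have := Fact.mk ha
  have := Fact.mk hb
  have := N.fin_root ha.ne_zero
  have := N.fin_root hb.ne_zero
  have := N.fin_root hp0
  have := Fintype.ofFinite (AdjoinRoot a)
  have := Fintype.ofFinite (AdjoinRoot b)
  have := AdjoinRoot.nontrivial p (degree_ne_of_natDegree_ne (n := 0) hp.ne')
  have fr : ∀ a : k[X], a ≠ 0 → Module.finrank k (AdjoinRoot a) = a.natDegree := fun a h => by
    rw [(AdjoinRoot.powerBasis h).finrank, AdjoinRoot.powerBasis_dim]
  obtain ⟨ι⟩ := exists_emb (L := AdjoinRoot a) hp0 (by rwa [fr a ha.ne_zero, ha'])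
  let := ι.toAlgebra
  have : IsScalarTower k (AdjoinRoot a) (AdjoinRoot p) := .of_algebraMap_eq fun x =>
    (ι.commutes x).symm
  have f1 := Module.finrank_mul_finrank k (AdjoinRoot a) (AdjoinRoot p)
  obtain ⟨ι'⟩ := FiniteField.nonempty_algHom_of_finrank_dvd (F := k) (K := AdjoinRoot a)
    (L := AdjoinRoot b) (by rw [fr b hb.ne_zero, hb', ← fr p hp0, ← f1]; exact dvd_mul_right _ _)
  let := ι'.toAlgebra
  have : IsScalarTower k (AdjoinRoot a) (AdjoinRoot b) := .of_algebraMap_eq fun x =>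
    (ι'.commutes x).symm
  have f2 := Module.finrank_mul_finrank k (AdjoinRoot a) (AdjoinRoot b)
  rw [fr b hb.ne_zero, hb', ← fr p hp0, ← f1] at f2
  let l := LinearEquiv.ofFinrankEq (R := AdjoinRoot a) (AdjoinRoot p) (AdjoinRoot b)
    (Nat.eq_of_mul_eq_mul_left Module.finrank_pos f2).symm
  let ω : AdjoinRoot b →ₐ[k] Ω := IsSepClosed.lift
  obtain ⟨γ, hγ⟩ := IsCyclic.exists_ofOrder_eq_natCard (α := (AdjoinRoot a)ˣ)
  rw [Nat.card_units, Nat.card_eq_fintype_card, N.card_root ha.ne_zero, ha'] at hγ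
  have h1 : l 1 ≠ 0 := l.map_ne_zero_iff.2 one_ne_zero
  let χ := ω.toLinearMap ∘ₗ LinearMap.mulRight k (l 1)⁻¹ ∘ₗ l.toLinearMap.restrictScalars k
  have hχ : ∀ x, χ x = ω (l x * (l 1)⁻¹) := fun _ => rfl
  have h2 : χ 1 = 1 := by rw [hχ, mul_inv_cancel₀ h1, map_one]
  have h3 : ∀ x, χ (ι γ * x) = ω (ι' γ) * χ x := fun x => by
    rw [hχ, hχ, ← map_mul, ← mul_assoc]
    exact congrArg (fun y => ω (y * _)) (l.map_smul (γ : AdjoinRoot a) x)
  have h4 : χ (ι γ) = ω (ι' γ) := by simpa [h2] using h3 1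
  refine ⟨χ, Units.map (ι : AdjoinRoot a →* AdjoinRoot p) γ, h2, fun x hx => ?_, fun x => ?_,
    fun x => (h3 x).trans (h4 ▸ rfl), fun m => ?_⟩
  · exact (_root_.map_ne_zero ω).2 (mul_ne_zero (l.map_ne_zero_iff.2 hx) (inv_ne_zero h1))
  · rw [hχ, ← map_pow, ← hb', ← N.card_root hb.ne_zero, FiniteField.pow_card]
  · change χ (ι γ) ^ m = 1 ↔ _
    rw [h4, ← hγ, orderOf_dvd_iff_zpow_eq_one, ← map_zpow₀, ← map_zpow₀,
      map_eq_one_iff ω ω.injective, map_eq_one_iff ι' ι'.injective, Units.ext_iff,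
      Units.val_zpow_eq_zpow_val, Units.val_one]

end Pool.Agent.P.MP_7c5a52_nt.N
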