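import Pool.Agent.P.MP_7c5a52_nt.N.U
import Pool.Agent.P.MP_7c5a52_nt.N.Ch

/-! Functions on `X_1(n)` whose divisor comes from a rational class on `X_0(n)`. -/

open Polynomial
open scoped LinearAlgebra.Projectivization

set_option linter.unusedSectionVars false

namespace Pool.Agent.P.MP_7c5a52_nt.N

open G X

variable {k F E Ω : Type} [Field k] [Fintype k] [Field F] [Field E] [Field Ω] [Algebra k Ω]
  [Algebra F Ω] [Algebra E Ω] {T : F} {s : ℕ} {j : Fin s → E} [Algebra k F] [Algebra F E]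
  [IsScalarTower F E Ω] [IsScalarTower k F Ω] [GenJ F j] [GenT k T] {p : k[X]} {c : Ω}
  [IsSepClosure E Ω] {S : (AdjoinRoot p)ˣ → Ω ≃ₐ[E] Ω} {τ : Ω ≃ₐ[E] Ω} {f u : Ω}

attribute [local instance] tower

/-- Every character with values in the ground field is the character of a unit. -/
theorem Sec.real (H : Sec T j p c S) (κ : (AdjoinRoot p)ˣ →* kˣ) : ∃ U, Un (R1 T j p c) U ∧
    ∃ m : ℤ, ∀ g, S g U = algebraMap k Ω (κ g) * (N.pb T j p c g ^ m * U) := by
  have h0 := fun g => (H.pb_un' g).2.2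
  let R : Subgroup ((AdjoinRoot p)ˣ →* kˣ) :=
    { carrier := {κ | ∃ U, Un (R1 T j p c) U ∧
        ∃ m : ℤ, ∀ g, S g U = algebraMap k Ω (κ g) * (N.pb T j p c g ^ m * U)}
      one_mem' := ⟨1, un_one, 0, fun g => by simp⟩
      mul_mem' := by
        rintro a b ⟨U, h1, m, h2⟩ ⟨U', h1', m', h2'⟩
        exact ⟨_, h1.mul h1', m + m', fun g => by
          rw [map_mul, h2, h2', zpow_add₀ (h0 g), MonoidHom.mul_apply, Units.val_mul, map_mul]
          ring⟩
      inv_mem' := by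
        rintro a ⟨U, h1, m, h2⟩
        exact ⟨_, h1.inv, -m, fun g => by
          rw [map_inv₀, h2, zpow_neg, MonoidHom.inv_apply, Units.val_inv_eq_inv_val, map_inv₀,
            mul_inv, mul_inv]⟩ }
  refine chars H.ne0 R (fun π hπ hi => ?_) κ
  have := Fact.mk hi
  have := N.fin_root hi.ne_zero
  have := Fintype.ofFinite (ℙ k (AdjoinRoot π))
  choose t h1 h2 using fun b : (AdjoinRoot π)ˣ => proj_prod (k := k) (Ω := Ω) b
  have hc : Fintype.card (ℙ k (AdjoinRoot π)) = gs (Fintype.card k) π.natDegree := by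
    rw [← Nat.card_eq_fintype_card, Projectivization.card_of_finrank k _ (by
      rw [(AdjoinRoot.powerBasis hi.ne_zero).finrank, AdjoinRoot.powerBasis_dim]),
      Nat.card_eq_fintype_card]
  obtain ⟨n, hn⟩ := id hπ
  let μ : AdjoinRoot π →ₗ[k] Ω := psi k T j c ∘ₗ LinearMap.mulLeft k n ∘ₗ sec π
  have hμ : ∀ y, μ y = psi k T j c (n * sec π y) := fun _ => rfl
  refine ⟨MonoidHom.mk' (fun g => t (rd hπ g)) fun a b => Units.ext
    ((algebraMap k (AdjoinRoot π)).injective (by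
      simp only [h1, mul_pow, map_mul, Units.val_mul])),
    ⟨∏ x : ℙ k (AdjoinRoot π), μ x.rep, un_prod fun x _ => H.psi_un fun h => nd_sec x.rep_nonzero ?_,
      -Fintype.card (ℙ k (AdjoinRoot π)), fun g => ?_⟩, fun g => hc ▸ h1 _⟩
  · rw [hn, mul_comm] at h
    exact (mul_dvd_mul_iff_left (right_ne_zero_of_mul (hn ▸ H.ne0))).1 h
  · have e : ∀ y, S g (μ y) = μ (rd hπ g * y) / N.pb T j p c g := fun y => by
      rw [hμ, H.acts_psi (H.acts g), hμ]
      refine congrArg (· / _) (H.psi_congr ?_)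
      rw [mul_assoc, ← mul_sub, mul_comm n]
      refine hn.dvd.trans (mul_dvd_mul_right (AdjoinRoot.mk_eq_mk.1 ?_) n)
      rw [map_mul, mk_sec, mk_sec, rd_mk hπ (mk_sec _).symm, mul_comm]
    simp only [map_prod, e, Finset.prod_div_distrib, h2, Finset.prod_const, Finset.card_univ,
      MonoidHom.mk'_apply, zpow_neg, zpow_natCast]
    ring

variable [DecidableEq Ω]

/-- The character of a function with rational divisor class is fixed by the Galois group. -/
theorem Sec.fix_char (H : Sec T j p c S) (hf : f ∈ L1 T j p c) (h0 : f ≠ 0) {m : ℤ}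
    {κ : (AdjoinRoot p)ˣ → Ω} (hκ : ∀ g, κ g ∈ Fsep F Ω) (hκ0 : ∀ g, κ g ≠ 0)
    (e : ∀ g : (AdjoinRoot p)ˣ, S g f = κ g * (N.pb T j p c g ^ m * f)) 
    (ha : Acts T j c τ (1 : k[X]))
    (hu : u ∈ funField k T j c) (hu0 : u ≠ 0) (hV : Un (R1 T j p c) (τ f / (f * u)))
    (D : Subring Ω →₀ ℤ) (hD : ∀ V ∈ primeDiv k T j c,
      IsOrd (V.map (τ : Ω →+* Ω)) u (D V - D (V.map (τ : Ω →+* Ω)))) (g : (AdjoinRoot p)ˣ) :
    τ (κ g) = κ g := by
  have := N.fin_root H.ne0
  have := Fintype.ofFinite (AdjoinRoot p)ˣ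
  have := Fintype.ofFinite (ℙ k (AdjoinRoot p))
  have hτ := H.acts_gal ha isCoprime_one_right
  have comm : ∀ g, S g (τ f) = τ (S g f) := fun g =>
    H.acts_ext ((H.acts g).mul ha) (H.acts_congr (ha.mul (H.acts g)) (by
      rw [mul_comm, sub_self]; exact dvd_zero _)) (fun y hy => by
      rw [AlgEquiv.mul_apply, AlgEquiv.mul_apply, H.fix g y hy, H.fix g _ (map_Fsep τ hy)]) hf
  have hpb : ∀ x, τ (N.pb T j p c x) = N.pb T j p c x := fun x =>
    (H.acts_psi ha _).trans (by rw [mul_one, H.sol.one, div_one]; rfl)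
  obtain ⟨V, e3⟩ : ∃ V, V = τ f / (f * u) := ⟨_, rfl⟩
  rw [← e3] at hV
  rw [eq_div_iff (mul_ne_zero h0 hu0)] at e3
  have sv : ∀ g, S g V = τ (κ g) / κ g * V := fun g => by
    have e2 := comm g
    have := zpow_ne_zero m (H.pb_un' g).2.2
    have := hκ0 g
    simp only [e, ← e3, map_mul, map_zpow₀, H.fix_L g hu, hpb] at e2
    field_simp at e2 ⊢
    exact e2
  obtain ⟨a, a1, a2⟩ := H.unit_rep hV
  obtain ⟨κ', k1, k2, k3⟩ := ((Cg.prod Finset.univ fun g => (Cg.trans ⟨_, div_mem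
    (map_Fsep τ (hκ g)) (hκ g), div_ne_zero ((_root_.map_ne_zero τ).2 (hκ0 g)) (hκ0 g), sv g⟩
      a2))).symm
  rw [Finset.prod_const, Finset.card_univ] at k3
  have n0 : ∏ g, S g f ≠ 0 := Finset.prod_ne_zero_iff.2 fun g _ => (_root_.map_ne_zero _).2 h0
  obtain ⟨D0, hD0⟩ := H.exists_div (H.nm_fun hf) n0
  have e4 : PW T j c a ^ Fintype.card (AdjoinRoot p)ˣ =
      κ' * (τ (∏ g, S g f) * ((∏ g, S g f)⁻¹ * (u ^ Fintype.card (AdjoinRoot p)ˣ)⁻¹)) := by
    simp only [k3, map_prod, ← comm, ← e3, map_mul, H.fix_L _ hu, Finset.prod_mul_distrib,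
      Finset.prod_const, Finset.card_univ]
    field_simp
  have h5 := H.alg_of hτ (u := PW T j c a ^ Fintype.card (AdjoinRoot p)ˣ)
    (k3 ▸ mul_mem (K_fun k1) (H.nm_fun (H.R_L hV.1))) (pow_ne_zero _ H.PW_un.2.2)
    (by simp only [map_pow, PW, map_prod, map_zpow₀, hpb])
    (D0.1 - (Fintype.card (AdjoinRoot p)ˣ : ℤ) • D) fun W hW => by
      have hW' := map_primeDiv hτ hW
      have := H.dvr hW'
      rw [e4]
      convert (isOrd_zero_iff.2 (un_K (H.icl hW').2.2 k1 k2)).mul (((hD0 W hW).map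
        (τ : Ω →+* Ω)).mul ((hD0 _ hW').inv.mul (ord_pow (hD W hW)
          (Fintype.card (AdjoinRoot p)ˣ)).inv)) using 1
      · rfl
      simp only [Finsupp.sub_apply, Finsupp.smul_apply, smul_eq_mul]
      ring
  obtain ⟨y, y1, y2, rfl⟩ := H.free (h5.of_pow Fintype.card_pos) a1 ▸ a2
  have := sv g
  simp only [PW, Pi.zero_apply, zpow_zero, Finset.prod_const_one, mul_one, H.fix g y y1] at this
  exact (div_eq_one_iff_eq (hκ0 g)).1 (mul_right_cancel₀ y2 (this.symm.trans (one_mul y).symm))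

variable {Cs : Finset Ω} {D : WDiv (primeDiv k T j c)}

theorem Hw.rel_rat (H : Hw T j p c Cs) (hF : IntermediateField.adjoin k {T} = ⊤)
    (h : Rel T j p c f D.1) (hD : IsRational k T j (cl T j c D)) :
    ∃ (m : ℤ) (u : Ω), u ∈ funField k T j c ∧
      Rel T j p c (resc k j c (0 : Fin (s + 1)) ^ m * u) D.1 := by
  have := IsSepClosure.sep_closed E (K := Ω)
  have := N.fin_root H.ne0
  have := Fintype.ofFinite (ℙ k (AdjoinRoot p))
  obtain ⟨S, hS⟩ := H.exists_sec
  obtain ⟨U, hU, m, e⟩ := hS.semi h.1 h.2.1 fun g => H.rel_un (H.rel_map (hS.gal g) h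
    fun V hV => by rw [map_self (hS.gal g) (hS.fix g) (H.icl hV).2.1]) h
  replace h : Rel T j p c (f * U) D.1 :=
    H.rel_of_un h (by rw [div_mul_cancel_left₀ h.2.1]; exact hU.inv)
  generalize f * U = f at h e
  choose κ hκ hκ0 e using e
  have h0 := h.2.1
  have hp := fun g => (H.pb_un' g).2.2
  have hmul : ∀ g g', κ (g * g') = κ g * κ g' := fun g g' => by
    have h1 := hS.mul g g' h.1
    have := zpow_ne_zero m (hp g)
    have := zpow_ne_zero m (hp (g * g'))
    rw [e g', e (g * g'), map_mul, map_mul, map_zpow₀, hS.pb, hS.fix g _ (hκ g'), e g, div_zpow,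
      ← Units.val_mul] at h1
    field_simp at h1
    rw [← h1, mul_comm]
  have hk : ∀ g, ∃ β : k, algebraMap k Ω β = κ g := fun g => by
    obtain ⟨κ', hκ'⟩ := (InfiniteGalois.mem_range_algebraMap_iff_fixed (k := F)
        (⟨κ g, hκ g⟩ : Fsep F Ω)).2 fun ρ => by
      obtain ⟨τ', hτ', hK', D1, D2, e1, e2, e3⟩ := hD ρ
      obtain ⟨τ, hK, ha⟩ := H.exists_acts isCoprime_one_right ρ
      have hτ := H.acts_gal ha isCoprime_one_right
      have e4 : ∀ V ∈ primeDiv k T j c, D2.1 (V.map (τ : Ω →+* Ω)) = D1.1 V := fun V hV => by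
        rw [e3, ← Finsupp.mapDomain_apply (map_inj τ') D1.1, ← map_self (mul_mem hτ' (inv_mem hτ))
          (fun y hy => ?_) (H.icl (map_primeDiv hτ hV)).2.1]
        · congr 1
          exact Subring.ext fun z => by simp
        · have h1 := map_Fsep τ⁻¹ hy
          rw [AlgEquiv.mul_apply, hK' ⟨_, h1⟩, ← hK ⟨_, h1⟩]
          exact τ.apply_symm_apply y
      obtain ⟨u1, a1, b1, d1⟩ := H.of_cl ((map_sub _ D1 D).trans (sub_eq_zero.2 e1))
      obtain ⟨u2, a2, b2, d2⟩ := H.of_cl ((map_sub _ D2 D).trans (sub_eq_zero.2 e2))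
      have := (_root_.map_ne_zero τ).2 b1
      refine Subtype.ext ((hK _).symm.trans (hS.fix_char h.1 h0 hκ hκ0 e ha
        (div_mem a2 (map_funField hτ a1)) (div_ne_zero b2 this) ?_ D.1 (fun V hV => ?_) g))
      · convert H.rel_un (H.rel_map (n' := D.1 + (D2 - D).1) hτ (H.rel_mul h (H.rel_div a1 b1 d1))
          fun V hV => by simp [e4 V hV]) (H.rel_mul h (H.rel_div a2 b2 d2)) using 1
        rw [map_mul]
        field_simp
      · have := H.dvr (map_primeDiv hτ hV)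
        convert (d2 _ (map_primeDiv hτ hV)).mul ((d1 V hV).map (τ : Ω →+* Ω)).inv using 1
        · exact div_eq_mul_inv _ _
        · simp [e4 V hV]
    have e1 : algebraMap F Ω κ' = κ g := congrArg Subtype.val hκ'
    let χ : (AdjoinRoot p)ˣ →* Ωˣ := MonoidHom.mk' (fun g => Units.mk0 _ (hκ0 g))
      fun a b => Units.ext (hmul a b)
    have e2 : κ g ^ Nat.card (AdjoinRoot p)ˣ = 1 := by
      have := congrArg χ (pow_card_eq_one' (x := g))
      rw [map_pow, map_one] at this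
      exact congrArg Units.val this
    rw [← e1, ← map_pow, ← map_one (algebraMap F Ω)] at e2
    obtain ⟨β, rfl⟩ := root_unity GenT.tr hF Nat.card_pos.ne' ((algebraMap F Ω).injective e2)
    exact ⟨β, (IsScalarTower.algebraMap_apply k F Ω β).trans e1⟩
  choose β hβ using hk
  obtain ⟨U', hU', m', e'⟩ := hS.real (MonoidHom.mk' (fun g => Units.mk0 (β g) fun e =>
    hκ0 g (by rw [← hβ, e, map_zero])) fun a b => Units.ext ((algebraMap k Ω).injective (by
      simp [hβ, hmul])))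
  have e6 : ∀ g, S g (f / U') = N.pb T j p c g ^ (m - m') * (f / U') := fun g => by
    have := hκ0 g
    have := zpow_ne_zero m' (hp g)
    have := hU'.2.2
    rw [map_div₀, e, e', zpow_sub₀ (hp g), MonoidHom.mk'_apply, Units.val_mk0, hβ]
    field_simp
  have hf2 : f / U' ∈ L1 T j p c := div_mem h.1 (H.R_L hU'.1)
  have h02 := div_ne_zero h0 hU'.2.2
  obtain ⟨t, ht⟩ : (wt k (0 : Fin (s + 1)) : ℤ) ∣ m - m' := by
    classical
    obtain ⟨γ, hγ⟩ := IsCyclic.exists_ofOrder_eq_natCard (α := kˣ)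
    have := e6 (Units.map (algebraMap k (AdjoinRoot p) : k →* _) γ)
    rw [hS.triv γ.ne_zero rfl hf2, eq_comm, mul_eq_right₀ h02, Units.coe_map, MonoidHom.coe_coe,
      H.pb_C] at this
    rw [wt, Fin.val_zero, zero_add, pow_one, ← Fintype.card_units, ← Nat.card_eq_fintype_card,
      ← hγ, orderOf_dvd_iff_zpow_eq_one]
    exact Units.ext ((algebraMap k Ω).injective (by simpa using this))
  have hG := zpow_ne_zero t (resc_ne F (k := k) (j := j) H.ne 0)
  refine ⟨t, f / U' / resc k j c (0 : Fin (s + 1)) ^ t, hS.inv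
    (div_mem hf2 (zpow_mem (H.R_L (H.resc_R 0)) t)) fun g => ?_, H.rel_of_un h ?_⟩
  · have := zpow_ne_zero (m - m') (hp g)
    rw [map_div₀, e6, map_zpow₀, hS.resc, mul_zpow, ← zpow_natCast, ← zpow_mul, ← ht]
    field_simp
  · convert hU' using 1
    field_simp

end Pool.Agent.P.MP_7c5a52_nt.N
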