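import Pool.Agent.P.MP_7c5a52_nt.N.C

/-! Divisors on `X_0^r(n)` and functions on `X_1^r(n)`. -/

open Polynomial

set_option linter.unusedSectionVars false

namespace Pool.Agent.P.MP_7c5a52_nt.N

open G X

variable {k F E Ω : Type} [Field k] [Fintype k] [Field F] [Field E] [Field Ω] [Algebra k Ω]
  [Algebra F Ω] [Algebra E Ω] {T : F} {s : ℕ} {j : Fin s → E} [Algebra k F] [Algebra F E]
  [IsScalarTower F E Ω] [IsScalarTower k F Ω] [GenJ F j] [GenT k T] {p : k[X]} {c : Ω}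
  [IsSepClosure E Ω] {V W : Subring Ω} [DecidableEq Ω] {Cs : Finset Ω} {u f f' : Ω}
  {n n' : Subring Ω → ℤ} {D D' : WDiv (primeDiv k T j c)} {σ : Ω ≃ₐ[E] Ω}

theorem Hn.mk_div (H : Hn T j p c) (hu : u ∈ funField k T j c) (h0 : u ≠ 0)
    (h : ∀ V ∈ primeDiv k T j c, Un V u → n V = 0) :
    ∃ D : WDiv (primeDiv k T j c), ∀ V ∈ primeDiv k T j c, D.1 V = n V := by
  classical
  let n' : Subring Ω → ℤ := fun V => if V ∈ primeDiv k T j c then n V else 0
  have hfin : n'.support.Finite := by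
    refine (Set.finite_iUnion fun i => (H.chart i).1.finite hu h0).subset fun V hV => ?_
    have hV1 : V ∈ primeDiv k T j c := by_contra fun h => hV (if_neg h)
    obtain ⟨i, hi⟩ := id hV1
    exact Set.mem_iUnion.2 ⟨i, hi, fun hu => hV ((if_pos hV1).trans (h V hV1 hu))⟩
  exact ⟨⟨Finsupp.ofSupportFinite n' hfin, (Finsupp.mem_supported' _ _).2 fun V hV => if_neg hV⟩,
    fun V hV => if_pos hV⟩

theorem Hn.exists_div (H : Hn T j p c) (hu : u ∈ funField k T j c) (h0 : u ≠ 0) :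
    ∃ D : WDiv (primeDiv k T j c), ∀ V ∈ primeDiv k T j c, IsOrd V u (D.1 V) := by
  choose! o ho using fun V hV => H.ord (V := V) hV hu h0
  obtain ⟨D, hD⟩ := H.mk_div (n := o) hu h0 fun V hV h =>
    have := H.dvr hV
    (ho V hV).unique (isOrd_zero_iff.2 h)
  exact ⟨D, fun V hV => hD V hV ▸ ho V hV⟩

theorem Hn.of_cl (H : Hn T j p c) (hD : cl T j c D = 0) :
    ∃ u ∈ funField k T j c, u ≠ 0 ∧ ∀ V ∈ primeDiv k T j c, IsOrd V u (D.1 V) := by
  replace hD := (Submodule.Quotient.mk_eq_zero _).1 hD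
  induction hD using Submodule.span_induction with
  | mem D h => exact h
  | zero =>
    refine ⟨1, one_mem _, one_ne_zero, fun V hV => ?_⟩
    have := H.dvr hV
    exact isOrd_zero_iff.2 un_one
  | add D D' _ _ h h' =>
    obtain ⟨u, h1, h2, h3⟩ := h
    obtain ⟨u', h1', h2', h3'⟩ := h'
    refine ⟨u * u', mul_mem h1 h1', mul_ne_zero h2 h2', fun V hV => ?_⟩
    have := H.dvr hV
    exact (h3 V hV).mul (h3' V hV)
  | smul a D _ h =>
    obtain ⟨u, h1, h2, h3⟩ := h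
    refine ⟨u ^ a, zpow_mem h1 a, zpow_ne_zero a h2, fun V hV => ?_⟩
    have := H.dvr hV
    exact (h3 V hV).zpow a

theorem Hn.rational (H : Hn T j p c) (hD : ∀ σ ∈ gal k T j c, ∀ V ∈ primeDiv k T j c,
    D.1 (V.map (σ : Ω →+* Ω)) = D.1 V) : IsRational k T j (cl T j c D) := by
  intro ρ
  obtain ⟨σ, hK, ha⟩ := H.exists_acts isCoprime_one_right ρ
  have hσ := H.acts_gal ha isCoprime_one_right
  refine ⟨σ, hσ, hK, D, D, rfl, rfl, Finsupp.ext fun V => ?_⟩
  have hVe := map_map_inv σ V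
  have h4 : D.1.mapDomain (Subring.map (σ : Ω →+* Ω)) V =
      D.1 (V.map ((σ⁻¹ : Ω ≃ₐ[E] Ω) : Ω →+* Ω)) := by
    conv_lhs => rw [← hVe]
    exact Finsupp.mapDomain_apply (map_inj σ) _ _
  rw [h4]
  by_cases hV : V ∈ primeDiv k T j c
  · exact (hD _ (inv_mem hσ) V hV).symm
  · rw [(Finsupp.mem_supported' _ _).1 D.2 V hV, (Finsupp.mem_supported' _ _).1 D.2 _
      fun h => hV (hVe ▸ map_primeDiv hσ h)]

/-- A fixed function whose divisor is a coboundary is constant. -/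
theorem Hn.alg_of (H : Hn T j p c) (hσ : σ ∈ gal k T j c) (hu : u ∈ funField k T j c)
    (h0 : u ≠ 0) (e : σ u = u) (Δ : Subring Ω →₀ ℤ) (h : ∀ V ∈ primeDiv k T j c,
      IsOrd (V.map (σ : Ω →+* Ω)) u (Δ V - Δ (V.map (σ : Ω →+* Ω)))) :
    IsAlgebraic (Fsep F Ω) u := by
  refine H.const hu fun V hV => ?_
  obtain ⟨a, ha⟩ := H.ord hV hu h0
  have key : ∀ m : ℕ, ∃ V' ∈ primeDiv k T j c, IsOrd V' u a ∧ Δ V' = Δ V - m * a := fun m => by
    induction m with
    | zero => exact ⟨V, hV, ha, by simp⟩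
    | succ m ih =>
      obtain ⟨V', h1, h2, h3⟩ := ih
      have h4 := h2.map (σ : Ω →+* Ω)
      rw [RingHom.coe_coe, e] at h4
      have := H.dvr (map_primeDiv hσ h1)
      have := h4.unique (h V' h1)
      exact ⟨_, map_primeDiv hσ h1, h4, by push_cast; linear_combination h3 + this⟩
  have := H.dvr hV
  refine (ord_mem_iff ha).2 (le_of_eq (by_contra fun hn => ?_))
  refine Set.infinite_of_injective_forall_mem (f := fun m : ℕ => Δ V - m * a) (fun m m' e => ?_)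
    (fun m => ?_) Δ.finite_range
  · exact Nat.cast_injective (mul_right_cancel₀ (Ne.symm hn) (sub_right_injective e))
  · obtain ⟨V', -, -, h3⟩ := key m
    exact ⟨V', h3⟩

theorem Hw.rel_mul (H : Hw T j p c Cs) (h : Rel T j p c f n) (h' : Rel T j p c f' n') :
    Rel T j p c (f * f') (n + n') := by
  refine ⟨mul_mem h.1 h'.1, mul_ne_zero h.2.1 h'.2.1, fun W hW => ?_⟩
  obtain ⟨u, a, b, d⟩ := h.2.2 W hW
  obtain ⟨u', a', b', d'⟩ := h'.2.2 W hW
  have := H.dvr (H.down' hW)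
  exact ⟨u * u', mul_mem a a', b.mul b', mul_div_mul_comm f f' u u' ▸ d.mul d'⟩

theorem Hw.rel_zpow (H : Hw T j p c Cs) (h : Rel T j p c f n) (m : ℤ) :
    Rel T j p c (f ^ m) (m • n) := by
  refine ⟨zpow_mem h.1 m, zpow_ne_zero m h.2.1, fun W hW => ?_⟩
  obtain ⟨u, a, b, d⟩ := h.2.2 W hW
  have := H.dvr (H.down' hW)
  exact ⟨u ^ m, zpow_mem a m, b.zpow m, div_zpow f u m ▸ d.zpow m⟩

theorem Hw.rel_div (H : Hw T j p c Cs) (hu : u ∈ funField k T j c) (h0 : u ≠ 0)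
    (h : ∀ V ∈ primeDiv k T j c, IsOrd V u (n V)) : Rel T j p c u n :=
  ⟨H.le hu, h0, fun _ hW => ⟨u, hu, h _ (H.down' hW), by rw [div_self h0]; exact un_one⟩⟩

theorem Hw.rel_un (H : Hw T j p c Cs) (h : Rel T j p c f n) (h' : Rel T j p c f' n) :
    Un (R1 T j p c) (f / f') := by
  refine ht_un H.nrm (div_mem h.1 h'.1) (div_ne_zero h.2.1 h'.2.1) fun W hW => ?_
  obtain ⟨u, a, b, d⟩ := h.2.2 W hW
  obtain ⟨u', a', b', d'⟩ := h'.2.2 W hW
  have := H.dvr (H.down' hW)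
  have := ord_ne b
  have := ord_ne b'
  convert un_div (d.mul (un_mono (un_ord b' b) inf_le_left)) d' using 1
  field_simp

theorem Hw.rel_of_un (H : Hw T j p c Cs) (h : Rel T j p c f n) (h' : Un (R1 T j p c) (f / f')) :
    Rel T j p c f' n := by
  have h0 : f' ≠ 0 := fun e => h'.2.2 (by rw [e, div_zero])
  have := h.2.1
  refine ⟨by simpa [this] using div_mem h.1 (H.R_L h'.1), h0, fun W hW => ?_⟩
  obtain ⟨u, a, b, d⟩ := h.2.2 W hW
  refine ⟨u, a, b, ?_⟩
  convert un_div d (un_mono h' (ht_le hW)) using 1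
  field_simp

theorem Hw.rel_ord (H : Hw T j p c Cs) (h : Rel T j p c f n) (hf : f ∈ funField k T j c)
    (hW : W ∈ htOneLocs (R1 T j p c)) :
    IsOrd (W ⊓ (funField k T j c).toSubring) f (n (W ⊓ (funField k T j c).toSubring)) := by
  obtain ⟨u, a, b, d⟩ := h.2.2 W hW
  have := H.dvr (H.down' hW)
  exact ord_un b (un_inf (div_mem hf a) d)

theorem Hw.rel_zero (H : Hw T j p c Cs) (h : Rel T j p c f n) (hW : W ∈ htOneLocs (R1 T j p c)) :
    Un W f ↔ n (W ⊓ (funField k T j c).toSubring) = 0 := by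
  obtain ⟨u, a, b, d⟩ := h.2.2 W hW
  have := H.dvr (H.down' hW)
  refine ⟨fun h1 => b.unique (isOrd_zero_iff.2 (un_inf a ?_)), fun e => ?_⟩
  · simpa [h.2.1] using un_div h1 d
  · have := d.mul (un_mono (isOrd_zero_iff.1 (e ▸ b)) inf_le_left)
    rwa [div_mul_cancel₀ _ (ord_ne b)] at this

theorem Hw.rel_map (H : Hw T j p c Cs) (hσ : σ ∈ gal k T j c) (h : Rel T j p c f n)
    (e : ∀ V ∈ primeDiv k T j c, n' (V.map (σ : Ω →+* Ω)) = n V) : Rel T j p c (σ f) n' := by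
  refine ⟨H.map_L hσ h.1, (_root_.map_ne_zero σ).2 h.2.1, fun W hW => ?_⟩
  have hW' := H.map_W (inv_mem hσ) hW
  obtain ⟨u, a, b, d⟩ := h.2.2 _ hW'
  have b' := b.map (σ : Ω →+* Ω)
  have d' := un_map d (σ : Ω →+* Ω)
  rw [← e _ (H.down' hW'), map_inf hσ, map_map_inv] at b'
  rw [map_map_inv, map_div₀] at d'
  exact ⟨σ u, map_funField hσ a, b', d'⟩

theorem Hw.exists_rel (H : Hw T j p c Cs) (D : Subring Ω →₀ ℤ) : ∃ f, Rel T j p c f D := by
  have h1 : Rel T j p c 1 0 := H.rel_div (one_mem _) one_ne_zero fun V hV =>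
    have := H.dvr hV
    isOrd_zero_iff.2 un_one
  induction D using Finsupp.induction_linear with
  | zero => exact ⟨1, h1⟩
  | add D D' h h' =>
    obtain ⟨f, h⟩ := h
    obtain ⟨f', h'⟩ := h'
    exact ⟨_, H.rel_mul h h'⟩
  | single V m =>
    by_cases hV : V ∈ primeDiv k T j c
    swap
    · exact ⟨1, h1.congr fun W hW =>
        (Finsupp.single_eq_of_ne fun e => hV (by rw [← e]; exact H.down' hW)).symm⟩
    have := H.dvr hV
    have := H.ufd
    obtain ⟨π, hπ⟩ := IsDiscreteValuationRing.exists_irreducible V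
    have hL : (π : Ω) ^ m ∈ funField k T j c := zpow_mem (S := IntermediateField E Ω)
      ((H.icl hV).2.1 π.2) m
    obtain ⟨f, a, b, d⟩ := ht_split H.nrm (· ⊓ (funField k T j c).toSubring = V) (H.le hL)
      (zpow_ne_zero m (irr_ne_zero hπ))
    refine ⟨f, a, b, fun W hW => ?_⟩
    by_cases e : W ⊓ (funField k T j c).toSubring = V
    · exact ⟨_, hL, by simpa [e] using (ord_irr hπ).zpow m, (d W hW).1 e⟩
    · have := H.dvr (H.down' hW)
      exact ⟨1, one_mem _, by rw [Finsupp.single_eq_of_ne e]; exact isOrd_zero_iff.2 un_one,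
        by simpa using (d W hW).2 e⟩

theorem Hw.rel_of_cl (H : Hw T j p c Cs) (h : Rel T j p c f D.1) (e : cl T j c D' = cl T j c D) :
    ∃ u ∈ funField k T j c, u ≠ 0 ∧ Rel T j p c (f * u) D'.1 := by
  obtain ⟨u, a, b, d⟩ := H.of_cl ((map_sub _ D' D).trans (sub_eq_zero.2 e))
  exact ⟨u, a, b, (H.rel_mul h (H.rel_div a b d)).congr fun W _ => by simp⟩

theorem Hw.h_un (H : Hw T j p c Cs) : Un (R1 T j p c)
    (resc k j c (0 : Fin (s + 1)) ^ gs (Fintype.card k) p.natDegree / ∏ y ∈ Cs.erase 0, y) := by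
  rw [resc, g_zero, one_mul, ← pow_mul, wt, Fin.val_zero, zero_add, pow_one, mul_comm,
    gs_mul Fintype.one_lt_card, ← H.card', ← Finset.prod_const, ← Finset.prod_div_distrib]
  refine un_prod fun y hy => ?_
  obtain ⟨a, ha, rfl⟩ := H.mem'.1 hy
  rw [H.orb_eq, div_mul_cancel_right₀ H.ne]
  exact (H.psi_un ha).inv

theorem Hw.last_iff (H : Hw T j p c Cs) (hW : W ∈ htOneLocs (R1 T j p c)) :
    Un W (resc k j c (Fin.last s)) ↔ W ⊓ (funField k T j c).toSubring ∉ cusps k T j c := by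
  refine ⟨fun h h' => h'.2 (ht_le (H.down hW h)), fun h => ?_⟩
  obtain ⟨l, hl⟩ := H.exists_un hW
  have h1 := (by_contra fun h1 => h ⟨H.down' hW, h1⟩ : _ ≤ _) (base_le _ (YY_mem _ l))
  have h2 := ht_le hW (H.resc_R (Fin.last s))
  refine un_of_pow h2 (wt_ne (k := k) l) ⟨pow_mem h2 _, ?_, pow_ne_zero _ (resc_ne F H.ne _)⟩
  have := mul_mem h1.1 (hl.pow (wt k (Fin.last s))).2.1
  rwa [YY_resc H.ne, div_mul_eq_mul_div, mul_inv_cancel₀ (pow_ne_zero _ hl.2.2), one_div] at this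

/-- A divisor that is trivial on `Y_1(p)` is cuspidal. -/
theorem Hw.span_of (H : Hw T j p c Cs) (h : Rel T j p c f D.1)
    (hu : ∀ W ∈ htOneLocs (R1 T j p c), Un W (resc k j c (Fin.last s)) → Un W f) :
    cl T j c D ∈ AddSubgroup.closure (cuspClasses k T j c) := by
  refine mem_span_iff.2 ⟨D, rfl, fun V hV => ?_⟩
  by_cases h1 : V ∈ primeDiv k T j c
  swap
  · exact (Finsupp.mem_supported' _ _).1 (Subtype.prop _) V h1
  obtain ⟨W, hW, rfl⟩ := H.up' h1 hV
  exact (H.rel_zero h hW).1 (hu W hW ((H.last_iff hW).2 hV))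

theorem Hw.span_of' (H : Hw T j p c Cs) (h : Rel T j p c f D.1) (hu : u ∈ funField k T j c)
    (h0 : u ≠ 0)
    (hf : ∀ W ∈ htOneLocs (R1 T j p c), Un W (resc k j c (Fin.last s)) → Un W (f / u)) :
    cl T j c D ∈ AddSubgroup.closure (cuspClasses k T j c) := by
  obtain ⟨D', hD'⟩ := H.exists_div (inv_mem hu) (inv_ne_zero h0)
  have := H.span_of (D := D + D') (H.rel_mul h (H.rel_div (inv_mem hu) (inv_ne_zero h0) hD'))
    (div_eq_mul_inv f u ▸ hf)
  rwa [map_add, cl_zero (inv_mem hu) (inv_ne_zero h0) hD', add_zero] at this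

end Pool.Agent.P.MP_7c5a52_nt.N
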