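import Pool.Agent.P.MP_7c5a52_nt.Defs

/-! Locally principal divisor classes. -/

namespace Pool.Agent.P.MP_7c5a52_nt

variable {K : Type} [Field K] {L : Subfield K} {S : Set (Subring K)}

/-- The class `x` is locally principal (Cartier) on the affine open set with ring `R`: it is the
class of a divisor `D` such that, for every closed point `Q`, some function `u` has order `D V`
along each prime divisor `V` through `Q`, that is, each `V` that contains the local ring at `Q`. -/
def LocPrin (R : Subring K) (x : ClassGroupOf L S) : Prop :=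
  ∃ D : WDiv S, cls L S D = x ∧ ∀ Q : Ideal R, Q.IsMaximal → ∃ u ∈ L, u ≠ 0 ∧
    ∀ V ∈ htOneLocs R, (∀ y : R, y ∉ Q → (y : K)⁻¹ ∈ V) → IsOrd V u (D.1 V)

end Pool.Agent.P.MP_7c5a52_nt
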