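import Pool.Agent.P.MP_7c5a52_nt.N.Coh
import Pool.Agent.P.MP_7c5a52_nt.N.Defs

/-! Rational divisor classes on `X_0^r(n)` for `deg n ≤ r`. -/

open Polynomial

set_option linter.unusedSectionVars false

namespace Pool.Agent.P.MP_7c5a52_nt.N

open G X

theorem exists_Q {K Ω : Type} [Field K] [Field Ω] [Algebra K Ω] {s : ℕ} {v P : Fin s → Ω}
    (hv : AlgebraicIndependent K v) {R : Subring Ω} (h : R ≤ locO K v P) :
    ∃ Q : Ideal R, Q.IsPrime ∧ ∀ y : R, y ∈ Q ↔ Val K v P y 0 := by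
  refine ⟨{ carrier := {y | Val K v P y 0}
            add_mem' := fun {a b} ha hb => by simpa using Val.add ha hb
            zero_mem' := by simpa using Val.const (v := v) (P := P) (0 : K)
            smul_mem' := fun a b hb => ?_ }, ⟨fun e => ?_, fun {a b} hab => ?_⟩, fun _ => Iff.rfl⟩
  · obtain ⟨t, ht⟩ := h a.2
    simpa using ht.mul hb
  · exact zero_ne_one (Val.unique hv ((Ideal.eq_top_iff_one _).1 e) Val.one)
  · obtain ⟨t, ht⟩ := h a.2
    obtain ⟨t', ht'⟩ := h b.2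
    exact (mul_eq_zero.1 ((ht.mul ht').unique hv hab)).imp (fun e => by rwa [e] at ht)
      fun e => by rwa [e] at ht'

theorem un_of_not {K Ω : Type} [Field K] [Field Ω] [Algebra K Ω] {s : ℕ} {v P : Fin s → Ω} {y : Ω}
    (h : y ∈ locO K v P) (h0 : ¬ Val K v P y 0) : Un (locO K v P) y := by
  obtain ⟨t, ht⟩ := h
  exact ht.un (fun e => h0 (by simpa [e] using Val.const (v := v) (P := P) (0 : K)))
    fun e => h0 (e ▸ ht)

variable {k F E Ω : Type} [Field k] [Fintype k] [Field F] [Field E] [Field Ω] [Algebra k Ω]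
  [Algebra F Ω] [Algebra E Ω] {T : F} {s : ℕ} [Algebra k F] [Algebra F E]
  [IsScalarTower F E Ω] [IsScalarTower k F Ω] [GenT k T] {p : k[X]} {c : Ω} [IsSepClosure E Ω]

section Ell

variable {j : Fin s → E} [GenJ F j] {χ : AdjoinRoot p →ₗ[k] Ω} {z : Fin (s + 1) → Ω}

theorem Hn.R_O (H : Hn T j p c) (h1 : χ 1 = 1) (h2 : ∀ x, x ≠ 0 → χ x ≠ 0) :
    R1 T j p c ≤ locO (Fsep F Ω) (ww T j p c) (pt p χ z) :=
  locM_le (fun a => ⟨_, Val.const a⟩)
    (fun i => by simpa using aeval_mem_locO (K := Fsep F Ω) (MvPolynomial.X i)) (by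
      rintro _ ⟨a, ha, rfl⟩
      rw [H.lin]
      exact (H.val_psi h1 a).un (H.psi_ne ha) (h2 _ (AdjoinRoot.mk_eq_zero.not.2 ha)))

/-- A function that is a unit along all prime divisors through a point is a unit at the point. -/
theorem Hn.un_O (H : Hn T j p c) (h1 : χ 1 = 1) (h2 : ∀ x, x ≠ 0 → χ x ≠ 0) {w : Ω}
    (hw : w ∈ L1 T j p c) (h0 : w ≠ 0) (h : ∀ W ∈ htOneLocs (R1 T j p c),
      locO (Fsep F Ω) (ww T j p c) (pt p χ z) ≤ W → Un W w) :
    Un (locO (Fsep F Ω) (ww T j p c) (pt p χ z)) w := by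
  have := H.ufd
  have hR := H.R_O (z := z) h1 h2
  obtain ⟨Q, hQ, hQ'⟩ := exists_Q H.indep hR
  have hO : IsLoc (R1 T j p c) Q (locO (Fsep F Ω) (ww T j p c) (pt p χ z)) := fun y => by
    constructor
    · rintro ⟨t, n, d, a1, a2, -⟩
      exact ⟨⟨_, aeval_mem_locM n⟩, ⟨_, aeval_mem_locM d⟩, (hQ' _).not.2 fun e =>
        a1 ((Val.poly d).unique H.indep e), eq_div_of_mul_eq (aeval_ne H.indep a1) a2⟩
    · rintro ⟨a, b, hb, rfl⟩
      rw [div_eq_mul_inv]
      exact mul_mem (hR a.2) (un_of_not (hR b.2) ((hQ' b).not.1 hb)).2.1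
  have key : ∀ w ∈ L1 T j p c, w ≠ 0 → (∀ W ∈ htOneLocs (R1 T j p c),
      locO (Fsep F Ω) (ww T j p c) (pt p χ z) ≤ W → w ∈ W) →
      w ∈ locO (Fsep F Ω) (ww T j p c) (pt p χ z) := fun w hw h0 h => by
    obtain ⟨a, b, hb, rfl⟩ := H.nrm.frac w hw
    obtain ⟨a, b, d, hr, rfl, rfl⟩ := UniqueFactorizationMonoid.exists_reduced_factors' a b hb
    have hb0 : (b : Ω) ≠ 0 := fun e => right_ne_zero_of_mul hb (Subtype.ext e)
    rw [Subring.coe_mul, Subring.coe_mul, mul_div_mul_left _ _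
      fun e => left_ne_zero_of_mul hb (Subtype.ext e)] at h ⊢
    by_cases hu : Un (locO (Fsep F Ω) (ww T j p c) (pt p χ z)) b
    · rw [div_eq_mul_inv]
      exact mul_mem (hR a.2) hu.2.1
    obtain ⟨W, hW, a1, a2⟩ := exists_ht H.nrm.noeth hQ hO (hR b.2) hb0 hu
    obtain ⟨π, hπ, a3⟩ := ht_gen hW
    have a4 := h W hW a1
    have a5 := ht_le hW
    obtain ⟨P, hP, a6, hW⟩ := hW
    have a7 : ∀ y : R1 T j p c, ¬ Un W y → π ∣ y := fun y hy => by
      rw [← Ideal.mem_span_singleton, ← P.eq_span_singleton_of_height_eq_one a6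
        (by_contra fun hn => a3 (IsLoc.un hP hW hn)) hπ]
      exact by_contra fun hn => hy (IsLoc.un hP hW hn)
    refine absurd (hr (a7 a fun hn => a2 (un_of_mul (a5 b.2) a4 ?_)) (a7 b a2)) hπ.not_isUnit
    rwa [mul_div_cancel₀ _ hb0]
  exact ⟨key _ hw h0 fun W a b => (h W a b).1,
    key _ (inv_mem hw) (inv_ne_zero h0) fun W a b => (h W a b).2.1, h0⟩

theorem Hn.un_last (H : Hn T j p c) (h1 : χ 1 = 1) (h2 : ∀ x, x ≠ 0 → χ x ≠ 0)
    (h3 : ∀ x, χ x ^ Fintype.card k ^ p.natDegree = χ x) :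
    Un (locO (Fsep F Ω) (ww T j p c) (pt p χ (Pi.single (Fin.last s) 1)))
      (resc k j c (Fin.last s)) := by
  rcases H.deg.lt_or_eq with hd | hd
  · obtain ⟨i, _, h⟩ := N.cw_high (ψ := psi k T j c) (l := Fin.last s) H.pos (Nat.le_of_lt_succ hd)
    obtain ⟨i', e, h'⟩ := N.cw_high (ψ := χ ∘ₗ (AdjoinRoot.mkₐ p).toLinearMap) (l := Fin.last s)
      H.pos (Nat.le_of_lt_succ hd)
    obtain rfl : i = i' := Fin.succ_injective _ (by simp [*])
    have := Val.poly (v := ww T j p c) (P := pt p χ (Pi.single (Fin.last s) 1))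
      (MvPolynomial.X (R := Fsep F Ω) i)
    simp only [MvPolynomial.aeval_X, h, h', Pi.single_eq_same] at this
    exact this.un (resc_ne F H.ne _) one_ne_zero
  · choose G hG using fun l => H.R_O (z := Pi.single (Fin.last s) 1) h1 h2 (H.resc_R l)
    refine (hG _).un (resc_ne F H.ne _) fun e => ?_
    have hq : Fintype.card k ^ p.natDegree ≠ 0 := pow_ne_zero _ q_ne
    have alg : ∀ x, χ x ∈ algebraicClosure k Ω := fun x => mem_algebraicClosure_iff.2
      ⟨X ^ Fintype.card k ^ p.natDegree - X, FiniteField.X_pow_card_sub_X_ne_zero k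
        (Nat.one_lt_pow H.pos.ne' Fintype.one_lt_card), by simp [h3]⟩
    have := N.sol_mem (t := 0) (ψ := χ ∘ₗ (AdjoinRoot.mkₐ p).toLinearMap)
      (G := G + Pi.single (Fin.last s) (TT Ω T)) H.ne0 ⟨by simpa using h1, fun a => ⟨fun h =>
        AdjoinRoot.mk_eq_zero.1 (by_contra fun hn => h2 _ hn h), fun h => by
          simp [AdjoinRoot.mk_eq_zero.2 h]⟩, fun a => ?_⟩ (U := (algebraicClosure k Ω).toSubring)
      (zero_mem _) (fun a => ⟨alg _, (algebraicClosure k Ω).inv_mem (alg _)⟩)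
      (fun l hl => absurd l.2 (by omega)) (Fin.last s)
    · rw [Pi.add_apply, e, zero_add, Pi.single_eq_same] at this
      obtain ⟨a, ha, h⟩ := mem_algebraicClosure_iff.1 this
      exact aeval_TT ha h
    · have a1 := val_sum Finset.univ fun l => (hG l).mul
        ((H.val_psi h1 a).pow (Fintype.card k ^ (l.1 + 1)))
      have a2 := (H.val_psi (z := Pi.single (Fin.last s) 1) h1 (X * a)).add
        ((Val.const (-⟨_, T_K (T := T)⟩ : Fsep F Ω)).mul (H.val_psi h1 a))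
      rw [H.sol.eq, sub_eq_add_neg, ← neg_mul] at a1
      simp only [Pi.add_apply, add_mul, Finset.sum_add_distrib]
      rw [Finset.sum_eq_single (f := fun l => (Pi.single (Fin.last s) (TT Ω T) :
        Fin (s + 1) → Ω) l * _) (Fin.last s) (fun b _ hb => by simp [hb]) (by simp),
        Pi.single_eq_same, Fin.val_last]
      refine (congrArg₂ (· + ·) (a1.unique H.indep a2) (congrArg _ (hd ▸ h3 _))).trans ?_
      simp

theorem Hn.eig (H : Hn T j p c) (h1 : χ 1 = 1) (h2 : ∀ x, x ≠ 0 → χ x ≠ 0)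
    {g : (AdjoinRoot p)ˣ} (h4 : ∀ x, χ (g * x) = χ g * χ x) (hz : ∀ l, z l * χ g ^ wt k l = z l)
    {m : ℤ} {u : Ω} (hu : u ∈ funField k T j c)
    (hw : Un (locO (Fsep F Ω) (ww T j p c) (pt p χ z)) (resc k j c (0 : Fin (s + 1)) ^ m * u)) :
    χ g ^ (wt k (0 : Fin (s + 1)) * m) = 1 := by
  obtain ⟨S, hS⟩ := H.exists_sec
  have := H.nontriv
  have h0 := h2 _ g.ne_zero
  have h5 := (H.pb_un' g).2.2
  refine locO_eigen H.indep (S g : Ω →+* Ω) (fun a => hS.fix g _ a.2) (fun i => ?_) hw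
    (val_zpow (H.val_pb h1 g) h5 h0 _) ?_
  · have a1 := Val.poly (v := ww T j p c) (P := pt p χ z) (MvPolynomial.X (R := Fsep F Ω) i)
    simp only [MvPolynomial.aeval_X, cw, RingHom.coe_coe] at a1 ⊢
    split_ifs at a1 ⊢ with hi
    · have := (H.val_pb (z := z) h1 (g * AdjoinRoot.mk p (X ^ (i.1 + 1)))).mul
        ((H.val_pb h1 g).inv h5 h0)
      rwa [h4, mul_right_comm, mul_inv_cancel₀ h0, one_mul, ← div_eq_mul_inv, ← hS.pb,
        H.pb_mk] at this
    · have := a1.mul ((H.val_pb h1 g).pow (wt k i.succ))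
      rwa [hz, ← hS.resc] at this
  · rw [RingHom.coe_coe, map_mul, map_zpow₀, hS.resc, hS.fix_L g hu, mul_zpow, zpow_mul,
      zpow_natCast]
    ring

variable [DecidableEq Ω] {Cs : Finset Ω} {D : WDiv (primeDiv k T j c)}

/-- The obstruction at the elliptic point. -/
theorem Hw.dvd_of_loc (H : Hw T j p c Cs) {e : ℕ} (he : e ∣ s + 1)
    (he' : ∀ π, Irreducible π → π ∣ p → e ∣ π.natDegree) {m : ℤ} {u : Ω}
    (hu : u ∈ funField k T j c) (h : Rel T j p c (resc k j c (0 : Fin (s + 1)) ^ m * u) D.1)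
    (hD : LocPrin (chart k T j c (Fin.last s)) (cl T j c D)) :
    (gs (Fintype.card k) e : ℤ) ∣ m := by
  have := IsSepClosure.sep_closed E (K := Ω)
  have hq : 1 < Fintype.card k := Fintype.one_lt_card
  obtain ⟨χ, g, h1, h2, h3, h4, h5⟩ :=
    exists_ell (Ω := Ω) H.pos (ne_zero_of_dvd_ne_zero (Nat.succ_ne_zero s) he) he'
  obtain ⟨D', e', hD'⟩ := hD
  obtain ⟨u1, a1, a2, a3⟩ := H.rel_of_cl h e'
  have hl := H.un_last h1 h2 h3
  have hO := H.chart_W (fun _ => locO_int H.indep) (H.R_O h1 h2) hl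
  obtain ⟨Q₀, hQ₀, hQ₁⟩ := exists_Q H.indep hO
  obtain ⟨Q, hQ, hle⟩ := Q₀.exists_le_maximal hQ₀.ne_top
  obtain ⟨u2, b1, b2, b3⟩ := hD' Q hQ
  have h6 := H.un_O (z := Pi.single (Fin.last s) 1) h1 h2 (div_mem a3.1 (H.le b1))
    (div_ne_zero a3.2.1 b2) fun W hW hOW => by
      obtain ⟨u3, d1, d2, d3⟩ := a3.2.2 W hW
      have := H.dvr (H.down' hW)
      have d4 := b3 _ (H.down hW (un_mono hl hOW)) fun y hy =>
        ⟨hOW (un_of_not (hO y.2) ((hQ₁ y).not.1 fun h => hy (hle h))).2.1,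
          (funField k T j c).inv_mem y.2.2⟩
      have := d3.mul (un_mono (un_ord d4 d2) inf_le_left)
      rwa [div_mul_div_cancel₀ (ord_ne d2)] at this
  rw [mul_assoc, mul_div_assoc] at h6
  have h7 := (h5 _).1 (H.eig h1 h2 h4 (fun l => by
    by_cases hl : l = Fin.last s
    · rw [hl, ← zpow_natCast, (h5 (wt k (Fin.last s))).2 (Int.natCast_dvd_natCast.2
        (Nat.pow_sub_one_dvd_pow_sub_one _ he)), mul_one]
    · rw [Pi.single_eq_of_ne hl, zero_mul]) (div_mem (mul_mem hu a1) b1) h6)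
  rw [← gs_mul hq, wt, Fin.val_zero, zero_add, pow_one, Nat.cast_mul, mul_comm] at h7
  exact (mul_dvd_mul_iff_left (Int.natCast_ne_zero.2 (Nat.sub_ne_zero_of_lt hq))).1 h7

theorem Hn.loc_of_span (H : Hn T j p c) {x : Cl k T j c}
    (h : x ∈ AddSubgroup.closure (cuspClasses k T j c)) :
    LocPrin (MP_7c5a52_nt.chart k T j c (Fin.last s)) x := by
  obtain ⟨D, e, hD⟩ := mem_span_iff.1 h
  refine ⟨D, e, fun Q _ => ⟨1, one_mem _, one_ne_zero, fun V hV _ => ?_⟩⟩
  have := H.dvr ⟨_, hV⟩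
  rw [hD V fun h => h.2 (ht_le hV)]
  exact isOrd_zero_iff.2 un_one

variable {γ : WDiv (primeDiv k T j c)}

theorem Hw.last_span (H : Hw T j p c Cs) (h : Rel T j p c (resc k j c (0 : Fin (s + 1))) γ.1) :
    (gs (Fintype.card k) (s + 1) : ℤ) • cl T j c γ ∈
      AddSubgroup.closure (cuspClasses k T j c) := by
  rw [← map_zsmul]
  refine H.span_of' (H.rel_zpow h _) (inv_mem (g_fun (Fin.last s))) (inv_ne_zero (g_ne F _))
    fun W _ hW => ?_
  rwa [div_inv_eq_mul, g_eq (k := k) H.ne (Fin.last _), zpow_natCast, Fin.val_last,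
    mul_div_cancel₀ _ (pow_ne_zero _ (resc_ne F H.ne 0))]

theorem Hw.prime_span (H : Hw T j p c Cs) (h : Rel T j p c (resc k j c (0 : Fin (s + 1))) γ.1)
    {π : k[X]} (hπ : Irreducible π) (hd : π ∣ p) :
    (gs (Fintype.card k) π.natDegree : ℤ) • cl T j c γ ∈
      AddSubgroup.closure (cuspClasses k T j c) := by
  obtain ⟨n, hn⟩ := hd
  have hl : IsLevel k T j (Ideal.span {π}) (orb k T j c n) := fun a => by
    rw [← orb_apply, orb_orb, orb_apply, lev_iff H.lev, Ideal.mem_span_singleton, hn,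
      mul_dvd_mul_iff_right (right_ne_zero_of_mul (hn ▸ H.ne0))]
  obtain ⟨C', h1, h2⟩ := G.exists_finset hπ (orb k T j (orb k T j c n)) (lev_iff hl)
  rw [← map_zsmul]
  refine H.span_of' (u := ∏ y ∈ C'.erase 0, y) (H.rel_zpow h _)
    (mem_funField.2 fun σ hσ _ => h_fix h2 ?_) h_ne fun W hW _ => un_mono ?_ (ht_le hW)
  · obtain ⟨b, hb, β, hβ, e⟩ := H.gal_acts hσ
    refine G.gal_of hl hπ (b := C β * b) (hπ.coprime_iff_not_dvd.1
      ((cop_C hβ).mul_right (hn ▸ hb).of_mul_left_left)) ?_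
    rw [map_orb, e, orb_smul, orb_orb, ← orb_apply, orb_orb, mul_assoc, C_mul', map_smul,
      Algebra.smul_def, mul_comm b]
  · rw [zpow_natCast, resc, g_zero, one_mul, ← pow_mul, wt, Fin.val_zero, zero_add, pow_one,
      mul_comm, gs_mul Fintype.one_lt_card, ← h1,
      ← Finset.card_erase_of_mem ((h2 0).2 ⟨0, map_zero _⟩), ← Finset.prod_const,
      ← Finset.prod_div_distrib]
    refine un_prod fun y hy => ?_
    obtain ⟨a, rfl⟩ := (h2 y).1 (Finset.mem_of_mem_erase hy)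
    rw [orb_orb] at hy ⊢
    rw [H.orb_eq, div_mul_cancel_right₀ H.ne]
    exact (H.psi_un ((lev_iff H.lev _).not.1 (Finset.mem_erase.1 hy).1)).inv

theorem gcd_span {M : Type} [AddCommGroup M] {A : AddSubgroup M} {x : M} {q a b : ℕ} (hq : 1 < q)
    (ha : (gs q a : ℤ) • x ∈ A) (hb : (gs q b : ℤ) • x ∈ A) : (gs q (a.gcd b) : ℤ) • x ∈ A := by
  rw [← gs_gcd hq, Nat.gcd_eq_gcd_ab, add_smul, mul_comm, mul_smul, mul_comm, mul_smul]
  exact add_mem (zsmul_mem ha _) (zsmul_mem hb _)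

end Ell

variable {j : Fin (s + 2) → E} [GenJ F j]

theorem Hw.exists_gam [DecidableEq Ω] {Cs : Finset Ω} (H : Hw T j p c Cs) :
    ∃ γ : WDiv (primeDiv k T j c), Rel T j p c (resc k j c (0 : Fin (s + 3))) γ.1 ∧
      IsRational k T j (cl T j c γ) := by
  obtain ⟨D, hD⟩ := H.exists_div (h_mem H.mem) h_ne
  obtain ⟨γ, hγ⟩ := H.mk_div (n := fun V => D.1 V / gs (Fintype.card k) p.natDegree)
    (h_mem H.mem) h_ne fun V hV h => by
      have := H.dvr hV
      simp [(hD V hV).unique (isOrd_zero_iff.2 h)]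
  refine ⟨γ, ⟨H.R_L (H.resc_R 0), resc_ne F H.ne 0, fun W hW => ?_⟩,
    H.rational fun σ hσ V hV => ?_⟩
  · obtain ⟨f, a, b, d⟩ := H.exists_loc hW
    have hV := H.down' hW
    have := H.dvr hV
    obtain ⟨o, ho⟩ := H.ord hV a b
    refine ⟨f, a, ?_, d⟩
    have h1 := un_div (d.pow (gs (Fintype.card k) p.natDegree)) (un_mono H.h_un (ht_le hW))
    rw [div_pow, div_div_div_cancel_left' _ _ (pow_ne_zero _ (resc_ne F H.ne 0))] at h1
    rwa [hγ _ hV, (hD _ hV).unique (ord_un (ord_pow ho _)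
      (un_inf (div_mem (h_mem H.mem) (pow_mem a _)) h1)), Int.mul_ediv_cancel_left _
      (Int.natCast_ne_zero.2 (gs_ne Fintype.one_lt_card H.pos.ne'))]
  · have hV' := map_primeDiv hσ hV
    have := H.dvr hV'
    have h1 := (hD V hV).map (σ : Ω →+* Ω)
    rw [RingHom.coe_coe, h_fix H.mem hσ] at h1
    rw [hγ _ hV', hγ _ hV, (hD _ hV').unique h1]

theorem main (hF : IntermediateField.adjoin k {T} = ⊤) (hp : 0 < p.natDegree)
    (hd : p.natDegree ≤ s + 3) (hc : IsLevel k T j (Ideal.span {p}) c) {e : ℕ}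
    (he : e = (s + 3).gcd ((UniqueFactorizationMonoid.factors p).map natDegree).gcd) :
    (∃ γ : Cl k T j c, IsRational k T j γ ∧
      (∀ x, IsRational k T j x → ∃ m : ℤ, x - m • γ ∈ AddSubgroup.closure (cuspClasses k T j c)) ∧
      ∀ m : ℤ, m • γ ∈ AddSubgroup.closure (cuspClasses k T j c) ↔
        (gs (Fintype.card k) e : ℤ) ∣ m) ∧
    ∀ x, IsRational k T j x → (x ∈ AddSubgroup.closure (cuspClasses k T j c) ↔
      LocPrin (chart k T j c (Fin.last _)) x) := by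
  classical
  have hp0 : p ≠ 0 := ne_zero_of_natDegree_gt hp
  obtain ⟨Cs, hcard, hC⟩ := N.exists_finset hp0 (orb k T j c) (lev_iff hc)
  have H : Hw T j p c Cs := ⟨⟨hp, hd, hc⟩, hcard, hC⟩
  obtain ⟨γ, h, hγ⟩ := H.exists_gam
  have hq : 1 < Fintype.card k := Fintype.one_lt_card
  have e1 : e ∣ s + 3 := he ▸ Nat.gcd_dvd_left _ _
  have e2 : ∀ π, Irreducible π → π ∣ p → e ∣ π.natDegree := fun π h1 h2 => by
    obtain ⟨π', h3, h4⟩ := UniqueFactorizationMonoid.exists_mem_factors_of_dvd hp0 h1 h2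
    rw [he, natDegree_eq_of_degree_eq (degree_eq_degree_of_associated h4)]
    exact (Nat.gcd_dvd_right _ _).trans (Multiset.gcd_dvd (Multiset.mem_map_of_mem _ h3))
  have e3 : ∀ m : ℤ, (gs (Fintype.card k) e : ℤ) ∣ m →
      m • cl T j c γ ∈ AddSubgroup.closure (cuspClasses k T j c) := by
    rintro _ ⟨t, rfl⟩
    rw [mul_comm, mul_smul, he]
    refine zsmul_mem (gcd_span hq (H.last_span h) ?_) _
    have key : ∀ t : Multiset k[X], (∀ π ∈ t, Irreducible π ∧ π ∣ p) →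
        (gs (Fintype.card k) (t.map natDegree).gcd : ℤ) • cl T j c γ ∈
          AddSubgroup.closure (cuspClasses k T j c) := fun t => by
      induction t using Multiset.induction_on with
      | empty => simp [gs]
      | cons π t ih =>
        intro h1
        rw [Multiset.map_cons, Multiset.gcd_cons]
        exact gcd_span hq (H.prime_span h (h1 π (Multiset.mem_cons_self _ _)).1
          (h1 π (Multiset.mem_cons_self _ _)).2) (ih fun a ha => h1 a (Multiset.mem_cons_of_mem ha))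
    exact key _ fun π hπ => ⟨UniqueFactorizationMonoid.irreducible_of_factor π hπ,
      UniqueFactorizationMonoid.dvd_of_mem_factors hπ⟩
  have gen : ∀ x, IsRational k T j x → ∃ m : ℤ,
      x - m • cl T j c γ ∈ AddSubgroup.closure (cuspClasses k T j c) ∧
      (LocPrin (chart k T j c (Fin.last _)) x → (gs (Fintype.card k) e : ℤ) ∣ m) := fun x hx => by
    obtain ⟨D, rfl⟩ := (prin (funField k T j c).toSubfield (primeDiv k T j c)).mkQ_surjective x
    obtain ⟨f, hf⟩ := H.exists_rel D.1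
    obtain ⟨m, u, hu, h1⟩ := H.rel_rat hF hf hx
    refine ⟨m, ?_, H.dvd_of_loc e1 e2 hu h1⟩
    have h2 := H.rel_mul h1 (H.rel_zpow h (-m))
    rw [mul_right_comm, ← zpow_add₀ (resc_ne F H.ne 0), add_neg_cancel, zpow_zero, one_mul] at h2
    have := H.span_of' (D := D + (-m) • γ) h2 hu h2.2.1 fun W _ _ => by
      rw [div_self h2.2.1]; exact un_one
    rwa [map_add, map_zsmul, neg_smul, ← sub_eq_add_neg] at this
  refine ⟨⟨_, hγ, fun x hx => (gen x hx).imp fun _ h => h.1, fun m => ⟨fun h1 => ?_, e3 m⟩⟩,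
    fun x hx => ⟨H.loc_of_span, fun h1 => ?_⟩⟩
  · rw [← map_zsmul] at h1
    exact H.dvd_of_loc e1 e2 (one_mem _) (by rw [mul_one]; exact H.rel_zpow h m) (H.loc_of_span h1)
  · obtain ⟨m, h2, h3⟩ := gen x hx
    simpa using add_mem h2 (e3 m (h3 h1))

end Pool.Agent.P.MP_7c5a52_nt.N
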