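import Pool.Agent.P.MP_7c5a52_nt.N.D

/-! Units of the ring of `Y_1(n)`: a permutation lattice. -/

open Polynomial
open scoped LinearAlgebra.Projectivization

set_option linter.unusedSectionVars false

namespace Pool.Agent.P.MP_7c5a52_nt.N

open G X

variable {k F E Ω : Type} [Field k] [Fintype k] [Field F] [Field E] [Field Ω] [Algebra k Ω]
  [Algebra F Ω] [Algebra E Ω] {T : F} {s : ℕ} {j : Fin s → E} [Algebra k F] [Algebra F E]
  [IsScalarTower F E Ω] [IsScalarTower k F Ω] [GenJ F j] [GenT k T] {p : k[X]} {c : Ω}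
  [IsSepClosure E Ω] {S : (AdjoinRoot p)ˣ → Ω ≃ₐ[E] Ω}

attribute [local instance] tower

section Cg

variable (F) in
/-- Equal up to a constant. -/
def Cg (a b : Ω) : Prop := ∃ κ ∈ Fsep F Ω, κ ≠ 0 ∧ a = κ * b

variable {a b a' b' : Ω}

theorem Cg.of_eq (h : a = b) : Cg F a b := ⟨1, one_mem _, one_ne_zero, by rw [h, one_mul]⟩

theorem Cg.symm (h : Cg F a b) : Cg F b a := by
  obtain ⟨κ, h1, h2, rfl⟩ := h
  exact ⟨κ⁻¹, inv_mem h1, inv_ne_zero h2, by rw [inv_mul_cancel_left₀ h2]⟩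

theorem Cg.trans (h : Cg F a b) (h' : Cg F b a') : Cg F a a' := by
  obtain ⟨κ, h1, h2, rfl⟩ := h
  obtain ⟨κ', h1', h2', rfl⟩ := h'
  exact ⟨κ * κ', mul_mem h1 h1', mul_ne_zero h2 h2', by rw [mul_assoc]⟩

theorem Cg.mul (h : Cg F a b) (h' : Cg F a' b') : Cg F (a * a') (b * b') := by
  obtain ⟨κ, h1, h2, rfl⟩ := h
  obtain ⟨κ', h1', h2', rfl⟩ := h'
  exact ⟨κ * κ', mul_mem h1 h1', mul_ne_zero h2 h2', by ring⟩

theorem Cg.zpow (h : Cg F a b) (m : ℤ) : Cg F (a ^ m) (b ^ m) := by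
  obtain ⟨κ, h1, h2, rfl⟩ := h
  exact ⟨κ ^ m, zpow_mem h1 m, zpow_ne_zero m h2, mul_zpow _ _ _⟩

theorem Cg.prod {ι : Type} (t : Finset ι) {f g : ι → Ω} (h : ∀ i, Cg F (f i) (g i)) :
    Cg F (∏ i ∈ t, f i) (∏ i ∈ t, g i) := by
  classical
  induction t using Finset.induction_on with
  | empty => exact .of_eq rfl
  | insert i t hi ih => rw [Finset.prod_insert hi, Finset.prod_insert hi]; exact (h i).mul ih

theorem Cg.map (h : Cg F a b) (σ : Ω ≃ₐ[E] Ω) : Cg F (σ a) (σ b) := by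
  obtain ⟨κ, h1, h2, rfl⟩ := h
  exact ⟨σ κ, map_Fsep σ h1, (_root_.map_ne_zero σ).2 h2, map_mul σ _ _⟩

theorem Cg.alg (h : Cg F a b) (hb : IsAlgebraic (Fsep F Ω) b) : IsAlgebraic (Fsep F Ω) a := by
  obtain ⟨κ, h1, -, rfl⟩ := h
  exact (isAlgebraic_algebraMap (⟨κ, h1⟩ : Fsep F Ω)).mul hb

end Cg

variable (p) in
/-- The point of `Y_1(p)` given by a linear map and the free coordinates. -/
noncomputable abbrev pt (χ : AdjoinRoot p →ₗ[k] Ω) (z : Fin (s + 1) → Ω) : Fin s → Ω :=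
  cw p.natDegree (χ ∘ₗ (AdjoinRoot.mkₐ p).toLinearMap) z

variable {χ : AdjoinRoot p →ₗ[k] Ω} {z : Fin (s + 1) → Ω}

theorem Hn.val_psi (H : Hn T j p c) (h1 : χ 1 = 1) (a : k[X]) :
    Val (Fsep F Ω) (ww T j p c) (pt p χ z) (psi k T j c a) (χ (AdjoinRoot.mk p a)) := by
  have := Val.poly (v := ww T j p c) (P := pt p χ z) (G.lin s p (Fsep F Ω) a)
  rwa [H.lin, N.aeval_lin H.pos H.deg (by simpa using h1) fun a ha => by
    simp [AdjoinRoot.mk_eq_zero.2 ha]] at this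

theorem Hn.val_pb (H : Hn T j p c) (h1 : χ 1 = 1) (x : AdjoinRoot p) :
    Val (Fsep F Ω) (ww T j p c) (pt p χ z) (pb T j p c x) (χ x) := by
  have := H.val_psi (z := z) h1 (sec p x)
  rwa [mk_sec] at this

theorem val_prod {K : Type} [Field K] [Algebra K Ω] {v P : Fin s → Ω} {ι : Type} (t : Finset ι)
    {f g : ι → Ω} (h : ∀ i ∈ t, Val K v P (f i) (g i)) :
    Val K v P (∏ i ∈ t, f i) (∏ i ∈ t, g i) := by
  classical
  induction t using Finset.induction_on with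
  | empty => simpa using Val.one
  | insert i t hi ih =>
    rw [Finset.prod_insert hi, Finset.prod_insert hi]
    exact (h i (Finset.mem_insert_self _ _)).mul (ih fun i hi => h i (Finset.mem_insert_of_mem hi))

theorem zpow_sum {a : Ω} (ha : a ≠ 0) {ι : Type} (t : Finset ι) (e : ι → ℤ) :
    a ^ ∑ i ∈ t, e i = ∏ i ∈ t, a ^ e i := by
  classical
  induction t using Finset.induction_on with
  | empty => simp
  | insert i t hi ih => rw [Finset.sum_insert hi, Finset.prod_insert hi, zpow_add₀ ha, ih]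

theorem pb_rep {x : AdjoinRoot p} (hx : x ≠ 0) :
    Cg F (pb T j p c (Projectivization.mk k x hx).rep) (pb T j p c x) := by
  obtain ⟨a, ha⟩ := Projectivization.exists_smul_eq_mk_rep k x hx
  exact ⟨_, k_K (a : k), (_root_.map_ne_zero _).2 a.ne_zero, by
    rw [← ha, Units.smul_def, map_smul, Algebra.smul_def]⟩

/-- A linear map that vanishes exactly on a given line. -/
theorem Hn.exists_chi (H : Hn T j p c) {x : AdjoinRoot p} (hx : ∀ β : k, x ≠ algebraMap k _ β) :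
    ∃ χ : AdjoinRoot p →ₗ[k] Ω, χ 1 = 1 ∧ χ x = 0 ∧ ∀ y, χ y = 0 → ∃ β : k, y = β • x := by
  have hx0 : x ≠ 0 := by simpa using hx 0
  have h0 := (H.pb_un hx0).2.2
  have hq := wt_succ (k := k) (0 : Fin (s + 1))
  rw [Fin.val_zero, zero_add, pow_one] at hq
  have inj : ∀ y y', pb T j p c y = pb T j p c y' → y = y' := fun y y' e => by_contra fun h =>
    (H.pb_un (sub_ne_zero.2 h)).2.2 (by rw [map_sub, e, sub_self])
  let χ : AdjoinRoot p →ₗ[k] Ω := ((FiniteField.frobeniusAlgHom k Ω).toLinearMap -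
    LinearMap.mulLeft k (pb T j p c x ^ wt k (0 : Fin (s + 1)))) ∘ₗ pb T j p c
  have hχ : ∀ y, χ y = pb T j p c y ^ Fintype.card k -
    pb T j p c x ^ wt k (0 : Fin (s + 1)) * pb T j p c y := fun y => rfl
  have key : ∀ y, χ y = 0 → ∃ β : k, y = β • x := fun y h => by
    obtain ⟨β, hβ⟩ := mem_of_pow_q (k := k) (b := pb T j p c y / pb T j p c x) (by
      rw [div_pow, sub_eq_zero.1 ((hχ y).symm.trans h), ← hq, pow_succ,
        mul_div_mul_left _ _ (pow_ne_zero _ h0)])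
    exact ⟨β, inj _ _ (by rw [map_smul, Algebra.smul_def, hβ, div_mul_cancel₀ _ h0])⟩
  have h1 : χ 1 ≠ 0 := fun h => by
    obtain ⟨β, hβ⟩ := key 1 h
    have := H.nontriv
    have h2 : β ≠ 0 := fun e => by simp [e] at hβ
    exact hx β⁻¹ (by rw [Algebra.algebraMap_eq_smul_one, hβ, inv_smul_smul₀ h2])
  refine ⟨LinearMap.mulLeft k (χ 1)⁻¹ ∘ₗ χ, inv_mul_cancel₀ h1, mul_eq_zero_of_right _ ?_,
    fun y h => key y ((mul_eq_zero.1 h).resolve_left (inv_ne_zero h1))⟩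
  rw [hχ, ← hq, pow_succ, sub_self]

variable [Fintype (ℙ k (AdjoinRoot p))] {e e' : ℙ k (AdjoinRoot p) → ℤ}

variable (T j c) in
/-- Products of powers of points. -/
noncomputable def PW (e : ℙ k (AdjoinRoot p) → ℤ) : Ω := ∏ x, pb T j p c x.rep ^ e x

theorem Hn.PW_un (H : Hn T j p c) : Un (R1 T j p c) (PW T j c e) :=
  un_prod fun x _ => (H.pb_un x.rep_nonzero).zpow _

theorem Hn.PW_add (H : Hn T j p c) : PW T j c (e + e') = PW T j c e * PW T j c e' := by
  rw [PW, PW, PW, ← Finset.prod_mul_distrib]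
  exact Finset.prod_congr rfl fun x _ => zpow_add₀ (H.pb_un x.rep_nonzero).2.2 _ _

theorem PW_smul (m : ℤ) : PW T j c (m • e) = PW T j c e ^ m := by
  rw [PW, PW, ← Finset.prod_zpow]
  exact Finset.prod_congr rfl fun x _ => by rw [← zpow_mul, mul_comm]; rfl

theorem PW_neg : PW T j c (-e) = (PW T j c e)⁻¹ := by
  rw [← neg_one_smul ℤ e, PW_smul, zpow_neg_one]

theorem PW_single [DecidableEq (ℙ k (AdjoinRoot p))] (x : ℙ k (AdjoinRoot p)) :
    PW T j c (Pi.single x 1) = pb T j p c x.rep := by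
  rw [PW, Finset.prod_eq_single x (fun y _ h => by simp [h]) (by simp)]
  simp

theorem Hn.unit_rep (H : Hn T j p c) {w : Ω} (hw : Un (R1 T j p c) w) :
    ∃ e : ℙ k (AdjoinRoot p) → ℤ, ∑ x, e x = 0 ∧ Cg F w (PW T j c e) := by
  classical
  have := H.nontriv
  refine locM_un (H := fun w => ∃ e : ℙ k (AdjoinRoot p) → ℤ, ∑ x, e x = 0 ∧
    Cg F w (PW T j c e)) H.indep H.lin_ne ?_ ?_ ?_ ?_ ?_ hw
  · rintro a b ⟨e, h1, h2⟩ ⟨e', h1', h2'⟩
    exact ⟨e + e', by simp [Finset.sum_add_distrib, h1, h1'], H.PW_add ▸ h2.mul h2'⟩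
  · rintro a ⟨e, h1, h2⟩
    exact ⟨-e, by simp [h1], by simpa [PW_neg] using h2.zpow (-1)⟩
  · exact fun a ha => ⟨0, by simp, a, a.2, fun e => ha (Subtype.ext e), by simp [PW]⟩
  · rintro _ ⟨e, -, κ, -, h2, rfl⟩
    exact mul_ne_zero h2 H.PW_un.2.2
  · rintro _ ⟨a, ha, rfl⟩
    refine ⟨Pi.single (.mk k _ (AdjoinRoot.mk_eq_zero.not.2 ha)) 1 +
      -Pi.single (.mk k 1 one_ne_zero) 1, by simp [Finset.sum_add_distrib], ?_⟩
    have h1 := (pb_rep (T := T) (j := j) (c := c) (AdjoinRoot.mk_eq_zero.not.2 ha)).mul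
      ((pb_rep (T := T) (j := j) (c := c) (one_ne_zero (α := AdjoinRoot p))).zpow (-1))
    have h2 : pb T j p c 1 = 1 := by simpa using H.pb_C 1
    rw [h2, one_zpow, mul_one, H.pb_mk, zpow_neg_one] at h1
    rw [H.lin, H.PW_add, PW_neg, PW_single, PW_single]
    exact h1.symm

/-- The points are multiplicatively independent. -/
theorem Hn.free (H : Hn T j p c) (h : IsAlgebraic (Fsep F Ω) (PW T j c e)) (h0 : ∑ x, e x = 0) :
    e = 0 := by
  classical
  have := H.nontriv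
  have key : ∀ e : ℙ k (AdjoinRoot p) → ℤ, IsAlgebraic (Fsep F Ω) (PW T j c e) →
      ∀ x, x ≠ .mk k 1 one_ne_zero → e x ≤ 0 := fun e h x hx => by
    by_contra! hn
    obtain ⟨χ, h1, h2, h3⟩ := H.exists_chi (x := x.rep) fun β hβ => hx (by
      rw [← x.mk_rep, Projectivization.mk_eq_mk_iff']
      exact ⟨β, by rw [hβ, Algebra.algebraMap_eq_smul_one]⟩)
    obtain ⟨m, hm⟩ := Int.eq_ofNat_of_zero_le hn.le
    have h4 := ((H.val_pb (z := 0) h1 x.rep).pow m).mul (val_prod (Finset.univ.erase x)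
      fun y hy => val_zpow (H.val_pb h1 y.rep) (H.pb_un y.rep_nonzero).2.2 (fun h5 => by
        obtain ⟨β, hβ⟩ := h3 _ h5
        refine (Finset.mem_erase.1 hy).1 ?_
        rw [← x.mk_rep, ← y.mk_rep, Projectivization.mk_eq_mk_iff']
        exact ⟨β, hβ.symm⟩) (e y))
    rw [h2, zero_pow (by omega), zero_mul, ← zpow_natCast, ← hm, Finset.mul_prod_erase _
      (fun y => pb T j p c y.rep ^ e y) (Finset.mem_univ x)] at h4
    obtain ⟨t, ht⟩ := locO_int (P := pt p χ 0) H.indep (H.R_L (H.PW_un (e := e)).2.1)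
      (h.inv.isIntegral.map_of_comp_eq ((algebraMap (Fsep F Ω) Ω).codRestrict
        (locO (Fsep F Ω) (ww T j p c) (pt p χ 0)) fun a => ⟨_, Val.const a⟩) (RingHom.id Ω) rfl)
    have h5 := h4.mul ht
    rw [zero_mul, ← PW, mul_inv_cancel₀ H.PW_un.2.2] at h5
    exact zero_ne_one (h5.unique H.indep Val.one)
  have h1 : ∀ x, x ≠ .mk k 1 one_ne_zero → e x = 0 := fun x hx =>
    le_antisymm (key e h x hx) (neg_nonpos.1 (key (-e) (by rw [PW_neg]; exact h.inv) x hx))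
  funext x
  by_cases hx : x = .mk k 1 one_ne_zero
  · rwa [Finset.sum_eq_single x (fun y _ h => h1 y (hx ▸ h)) (by simp)] at h0
  · exact h1 x hx

theorem Sec.map_PW (H : Sec T j p c S) (g : (AdjoinRoot p)ˣ) :
    Cg F (S g (PW T j c e) * N.pb T j p c g ^ ∑ x, e x) (PW T j c fun x => e (g⁻¹ • x)) := by
  have h0 := (H.pb_un' g).2.2
  rw [PW, PW, map_prod, zpow_sum h0, ← Finset.prod_mul_distrib,
    ← Equiv.prod_comp (MulAction.toPerm g) fun x => N.pb T j p c x.rep ^ e (g⁻¹ • x)]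
  refine Cg.prod _ fun x => ?_
  rw [map_zpow₀, H.pb, ← mul_zpow, div_mul_cancel₀ _ h0, MulAction.toPerm_apply, inv_smul_smul]
  refine Cg.zpow ?_ _
  conv_rhs => rw [← x.mk_rep, Projectivization.smul_mk]
  exact (pb_rep _).symm

/-- The first cohomology of a permutation lattice vanishes. -/
theorem Sec.semi (H : Sec T j p c S) {f : Ω} (hf : f ∈ L1 T j p c) (h0 : f ≠ 0)
    (h1 : ∀ g, Un (R1 T j p c) (S g f / f)) : ∃ U, Un (R1 T j p c) U ∧ ∃ m : ℤ, ∀ g,
      Cg F (S g (f * U)) (N.pb T j p c g ^ m * (f * U)) := by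
  have := N.fin_root H.ne0
  have := Fintype.ofFinite (AdjoinRoot p)ˣ
  obtain ⟨Z, z1, z2⟩ := H.unit_rep (un_prod (t := Finset.univ) fun g _ => h1 g)
  choose a a1 a2 using fun g => H.unit_rep (h1 g)
  have hM : (Fintype.card (AdjoinRoot p)ˣ : ℤ) ≠ 0 := Int.natCast_ne_zero.2 Fintype.card_ne_zero
  have key : ∀ g x, Z (g⁻¹ • x) = Z x + Fintype.card (AdjoinRoot p)ˣ * -a g x := fun g x => by
    have h2 := H.map_PW (e := Z) g
    rw [z1, zpow_zero, mul_one] at h2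
    have h3 := ((z2.map (S g)).trans h2).mul ((a2 g).zpow (Fintype.card (AdjoinRoot p)ˣ))
    have hg := (_root_.map_ne_zero (S g)).2 h0
    have h4 : S g (∏ g, S g f / f) * (S g f / f) ^ (Fintype.card (AdjoinRoot p)ˣ : ℤ) =
        ∏ g, S g f / f := by
      rw [Finset.prod_div_distrib, map_div₀, H.fix_L g (H.nm_fun hf), Finset.prod_const, map_pow,
        zpow_natCast, div_pow, Finset.card_univ]
      field_simp
    rw [h4, ← PW_smul, ← H.PW_add] at h3
    have h5 := (h3.symm.trans z2).mul (Cg.of_eq (F := F) (PW_neg (T := T) (j := j) (c := c) (e := Z)))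
    rw [← H.PW_add, mul_inv_cancel₀ H.PW_un.2.2] at h5
    have h6 := congrFun (H.free (h5.alg isAlgebraic_one) (by
      simp only [Pi.add_apply, Pi.smul_apply, Pi.neg_apply, Finset.sum_add_distrib, smul_eq_mul,
        ← Finset.mul_sum, a1, Finset.sum_neg_distrib]
      rw [show ∑ x, Z (g⁻¹ • x) = ∑ x, Z x from Equiv.sum_comp (MulAction.toPerm g⁻¹) Z]
      ring)) x
    simp only [Pi.add_apply, Pi.smul_apply, Pi.neg_apply, smul_eq_mul, Pi.zero_apply] at h6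
    linear_combination h6
  refine ⟨PW T j c fun x => Z x / Fintype.card (AdjoinRoot p)ˣ, H.PW_un,
    -∑ x, Z x / Fintype.card (AdjoinRoot p)ˣ, fun g => ?_⟩
  have h2 := H.map_PW (e := fun x => Z x / Fintype.card (AdjoinRoot p)ˣ) g
  have h3 : (fun x => Z (g⁻¹ • x) / Fintype.card (AdjoinRoot p)ˣ) =
      (fun x => Z x / Fintype.card (AdjoinRoot p)ˣ) + -a g :=
    funext fun x => by rw [key, Int.add_mul_ediv_left _ _ hM]; rfl
  rw [h3, H.PW_add, PW_neg] at h2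
  have h4 := ((a2 g).mul h2).mul (Cg.of_eq (F := F) (rfl (a := f *
    N.pb T j p c g ^ (-∑ x, Z x / Fintype.card (AdjoinRoot p)ˣ))))
  have h5 := zpow_ne_zero (∑ x, Z x / (Fintype.card (AdjoinRoot p)ˣ : ℤ)) (H.pb_un' g).2.2
  have h6 := (H.PW_un (e := a g)).2.2
  convert h4 using 1
  · rw [map_mul, zpow_neg]
    field_simp
  · field_simp

end Pool.Agent.P.MP_7c5a52_nt.N
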